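import Pool.Agent.Zk48.AP.Mer
import Pool.Agent.Zk41.P4.Rich
import Pool.Agent.Y677.RSZ.Eng4

/-!
Richert's theorem for all arithmetic progressions with coprime first term and difference, uniformly: a generalisation of
`Pool.Agent.Zk48.AP.Low` (helper48), where the progressions are `2 p k + 1`.
-/

set_option autoImplicit false

namespace Pool.Agent.Zk38.AP

open Finset Filter Topology
open Pool.Agent.Y677.RSZ (ev_log)
open Pool.Agent.W23.DC
open Pool.Agent.Y882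
open Pool.Agent.Y882.KW
open Pool.Agent.K3h19.RV (Lam)
open Pool.Agent.Zk48.AP (rho few mer mert rem cnt pr_facts pr_sq)

/-- the sieve product -/
noncomputable def VG (q H : ℕ) : ℝ := ∏ ℓ ∈ (Icc 1 H).filter Nat.Prime, (1 - (rho q ℓ : ℝ) / ℓ)

open Classical in
/-- the `k` in `[1, H]` such that `a + q k` has at most `r` prime factors, all at least `z` -/
noncomputable def RG (r : ℕ) (z : ℝ) (q a H : ℕ) : Finset ℕ :=
  (Icc 1 H).filter (fun k => (a + q * k).primeFactorsList.length ≤ r ∧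
    ∀ ℓ : ℕ, ℓ.Prime → ℓ ∣ a + q * k → z ≤ ℓ)

theorem Lam_posG (r : ℕ) (hr : 1 ≤ r) : 1 ≤ Lam r := by
  unfold Lam
  have h3 : (3 : ℝ) ≤ 3 ^ r := by
    calc (3 : ℝ) = 3 ^ 1 := (pow_one _).symm
      _ ≤ 3 ^ r := pow_le_pow_right₀ (by norm_num) hr
  have h1 : 0 ≤ Real.log ((3 ^ r + 1) / 4) := Real.log_nonneg (by linarith)
  have h2 : 0 < Real.log 3 := Real.log_pos (by norm_num)
  have := div_nonneg h1 h2.le
  linarith

/-- the product over the large prime factors of `q` -/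
lemma large_prod (M : ℕ) (hM : 2 ≤ M) (g : ℝ) (hg : 0 ≤ g) (hgM : 2 * g ≤ M) (q : ℕ) (hq : 0 < q)
    (hqM : (q : ℝ) ≤ (M : ℝ) ^ g) (S : Finset ℕ) (hS : ∀ p ∈ S, p.Prime ∧ p ∣ q ∧ (M : ℝ) ≤ p) :
    1 / 2 ≤ ∏ p ∈ S, (1 - 1 / (p : ℝ)) := by
  have hM0 : (0 : ℝ) < M := by exact_mod_cast (by omega : 0 < M)
  have hM2 : (2 : ℝ) ≤ M := by exact_mod_cast hM
  have hc := few M hM 1 g one_pos q hq hqM S (fun p hp => by
    rw [Real.rpow_one]
    exact hS p hp)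
  rw [div_one] at hc
  have h1 : 1 / (M : ℝ) ≤ 1 / 2 := one_div_le_one_div_of_le (by norm_num) hM2
  have h2 : 0 < 1 / (M : ℝ) := by positivity
  calc (1 : ℝ) / 2 ≤ 1 + (S.card : ℝ) * (-(1 / (M : ℝ))) := by
        have h3 : (S.card : ℝ) * (1 / (M : ℝ)) ≤ 1 / 2 := by
          rw [mul_one_div, div_le_iff₀ hM0]
          linarith
        linarith
    _ ≤ (1 + -(1 / (M : ℝ))) ^ S.card := one_add_mul_le_pow (by linarith) _
    _ = ∏ p ∈ S, (1 - 1 / (M : ℝ)) := by rw [prod_const, sub_eq_add_neg]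
    _ ≤ ∏ p ∈ S, (1 - 1 / (p : ℝ)) := by
        apply Finset.prod_le_prod
        · intro p _
          linarith
        · intro p hp
          have h3 := one_div_le_one_div_of_le hM0 (hS p hp).2.2
          linarith

lemma tot_prod (q : ℕ) : (q.totient : ℝ) = q * ∏ p ∈ q.primeFactors, (1 - 1 / (p : ℝ)) := by
  have h := Nat.totient_eq_mul_prod_factors q
  have h2 : ((q.totient : ℚ) : ℝ) = (((q : ℚ) * ∏ p ∈ q.primeFactors, (1 - (p : ℚ)⁻¹) : ℚ) : ℝ) := by rw [h]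
  push_cast at h2
  rw [h2]
  congr 1
  apply prod_congr rfl
  intro p _
  rw [one_div]

/-- the product over the primes which do not divide `q` -/
theorem mert_q : ∃ c C : ℝ, 0 < c ∧ 0 < C ∧ ∀ g : ℝ, 0 ≤ g → ∃ N₀ : ℕ, ∀ Z : ℕ, N₀ ≤ Z → ∀ q : ℕ, 0 < q →
    (q : ℝ) ≤ (Z : ℝ) ^ g →
    c * ((q : ℝ) / q.totient) / Real.log Z ≤ VG q Z ∧ VG q Z ≤ C * ((q : ℝ) / q.totient) / Real.log Z := by
  classical
  obtain ⟨c, C, hc, hC, N₀, h⟩ := mert
  refine ⟨c / 2, C, by positivity, hC, fun g hg => ?_⟩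
  obtain ⟨N₁, hN₁⟩ := exists_nat_ge (2 * g)
  refine ⟨N₀ + N₁ + 2, fun Z hZ q hq hqZ => ?_⟩
  obtain ⟨h1, h2⟩ := h Z (by omega)
  have hZ2 : (1 : ℝ) < Z := by exact_mod_cast (by omega : 1 < Z)
  have hL : 0 < Real.log Z := Real.log_pos hZ2
  obtain ⟨S, hS⟩ : ∃ S : Finset ℕ, S = (Icc 1 Z).filter Nat.Prime := ⟨_, rfl⟩
  have hSp : ∀ ℓ ∈ S, ℓ.Prime ∧ ℓ ≤ Z := by
    intro ℓ hℓ
    rw [hS, mem_filter, mem_Icc] at hℓ
    exact ⟨hℓ.2, hℓ.1.2⟩
  have hfac : ∀ ℓ : ℕ, ℓ.Prime → (1 : ℝ) / 2 ≤ 1 - 1 / (ℓ : ℝ) ∧ 1 - 1 / (ℓ : ℝ) ≤ 1 := by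
    intro ℓ hℓ
    have hp2 : (2 : ℝ) ≤ ℓ := by exact_mod_cast hℓ.two_le
    have h3 : 1 / (ℓ : ℝ) ≤ 1 / 2 := one_div_le_one_div_of_le (by norm_num) hp2
    have h4 : 0 < 1 / (ℓ : ℝ) := by positivity
    constructor <;> linarith
  have hVG : VG q Z = ∏ ℓ ∈ S, (1 - (rho q ℓ : ℝ) / ℓ) := by
    unfold VG
    rw [hS]
  rw [← hS] at h1 h2
  obtain ⟨P, hP⟩ : ∃ P : ℝ, P = ∏ ℓ ∈ S, (1 - 1 / (ℓ : ℝ)) := ⟨_, rfl⟩
  obtain ⟨Q, hQ⟩ : ∃ Q : ℝ, Q = ∏ ℓ ∈ q.primeFactors.filter (fun ℓ => ℓ ≤ Z), (1 - 1 / (ℓ : ℝ)) := ⟨_, rfl⟩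
  obtain ⟨R, hR⟩ : ∃ R : ℝ, R = ∏ ℓ ∈ q.primeFactors.filter (fun ℓ => ¬ ℓ ≤ Z), (1 - 1 / (ℓ : ℝ)) := ⟨_, rfl⟩
  have e1 : P = VG q Z * Q := by
    have e2 : q.primeFactors.filter (fun ℓ => ℓ ≤ Z) = S.filter (fun ℓ => ℓ ∣ q) := by
      ext ℓ
      rw [mem_filter, mem_filter, hS, mem_filter, mem_Icc, Nat.mem_primeFactors]
      constructor
      · rintro ⟨⟨h3, h4, h5⟩, h6⟩
        exact ⟨⟨⟨h3.one_le, h6⟩, h3⟩, h4⟩
      · rintro ⟨⟨⟨h3, h6⟩, h5⟩, h4⟩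
        exact ⟨⟨h5, h4, hq.ne'⟩, h6⟩
    rw [hP, hQ, e2, hVG, prod_filter, ← prod_mul_distrib]
    apply prod_congr rfl
    intro ℓ _
    unfold rho
    split_ifs
    · simp
    · simp
  have e3 : (q.totient : ℝ) = q * (Q * R) := by
    rw [tot_prod, hQ, hR, prod_filter_mul_prod_filter_not]
  have hQ0 : 0 < Q := by
    rw [hQ]
    apply prod_pos
    intro ℓ hℓ
    have := (hfac ℓ (Nat.prime_of_mem_primeFactors (mem_filter.1 hℓ).1)).1
    linarith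
  have hR1 : R ≤ 1 := by
    rw [hR]
    apply prod_le_one
    · intro ℓ hℓ
      have := (hfac ℓ (Nat.prime_of_mem_primeFactors (mem_filter.1 hℓ).1)).1
      linarith
    · intro ℓ hℓ
      exact (hfac ℓ (Nat.prime_of_mem_primeFactors (mem_filter.1 hℓ).1)).2
  have hR2 : 1 / 2 ≤ R := by
    rw [hR]
    apply large_prod Z (by omega) g hg ?_ q hq hqZ
    · intro ℓ hℓ
      rw [mem_filter] at hℓ
      refine ⟨Nat.prime_of_mem_primeFactors hℓ.1, Nat.dvd_of_mem_primeFactors hℓ.1, ?_⟩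
      exact_mod_cast (by omega : Z ≤ ℓ)
    · have : (N₁ : ℝ) ≤ Z := by exact_mod_cast (by omega : N₁ ≤ Z)
      linarith
  have hq0 : (0 : ℝ) < q := by exact_mod_cast hq
  have e4 : (q : ℝ) / q.totient = 1 / (Q * R) := by
    rw [e3]
    field_simp
  rw [e4]
  have hR0 : 0 < R := by linarith
  have e5 : VG q Z = P / Q := by
    rw [e1]
    field_simp
  rw [← hP] at h1 h2
  have h1' : c ≤ P * Real.log Z := by rwa [div_le_iff₀ hL] at h1
  have h2' : P * Real.log Z ≤ C := by rwa [le_div_iff₀ hL] at h2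
  rw [e5]
  constructor
  · rw [mul_one_div, div_div, div_div, div_le_div_iff₀ (by positivity) hQ0]
    have h3 : c * Q ≤ (P * Real.log Z) * Q := mul_le_mul_of_nonneg_right h1' hQ0.le
    have hP0 : 0 < P := by
      by_contra hcon
      push Not at hcon
      have := mul_nonpos_of_nonpos_of_nonneg hcon hL.le
      linarith
    have h4 : P * Real.log Z * Q * 1 ≤ P * Real.log Z * Q * (2 * R) :=
      mul_le_mul_of_nonneg_left (by linarith) (by positivity)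
    calc c * Q ≤ P * Real.log Z * Q * (2 * R) := by linarith
      _ = P * (2 * (Q * R * Real.log Z)) := by ring
  · rw [mul_one_div, div_div, div_le_div_iff₀ hQ0 (by positivity)]
    have h3 : (P * Real.log Z) * (Q * R) ≤ C * (Q * 1) := by
      apply mul_le_mul h2' (mul_le_mul_of_nonneg_left hR1 hQ0.le) (by positivity) hC.le
    linarith

set_option maxHeartbeats 1600000 in
/-- **Richert's theorem in all arithmetic progressions**, in terms of the number `H` of the terms -/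
theorem low_G (r : ℕ) (hr : 1 ≤ r) (g : ℝ) (hg0 : 0 < g) (hgL' : g < Lam r) :
    ∃ ζ δ : ℝ, 1 / 8 ≤ ζ ∧ 0 < δ ∧ ∃ H₀ : ℕ, ∀ q a H : ℕ, 0 < q → Nat.Coprime a q → H₀ ≤ H →
      ((a + q * H : ℕ) : ℝ) ≤ (H : ℝ) ^ g → δ * (H * VG q H) ≤ (RG r ((H : ℝ) ^ ζ) q a H).card := by
  classical
  have hL1 := Lam_posG r hr
  have hL0 : 0 < Lam r := by linarith
  have hgL : g / Lam r < 1 := by rwa [div_lt_one hL0]
  have hgL0 : 0 < g / Lam r := by positivity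
  obtain ⟨τ, hτd⟩ : ∃ τ : ℝ, τ = (g / Lam r + 1) / 2 := ⟨_, rfl⟩
  have hτ0 : 0 < τ := by rw [hτd]; positivity
  have hτ1 : τ < 1 := by rw [hτd]; linarith
  have hτ2 : 1 / 2 ≤ τ := by rw [hτd]; linarith
  have hτL : g < τ * Lam r := by
    have h1 : g / Lam r < τ := by rw [hτd]; linarith
    rwa [div_lt_iff₀ hL0] at h1
  obtain ⟨υ, lam, S, hτυ, hυτ, hlam, hgS, hrS, hint⟩ := Pool.Agent.Zk41.P4.richertD r hr g τ hg0 hτ0 hτL
  have hυ0 : 0 < υ := by linarith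
  obtain ⟨ε, hεd⟩ : ∃ ε : ℝ, ε = (1 - τ) / 8 := ⟨_, rfl⟩
  have hε0 : 0 < ε := by rw [hεd]; linarith
  obtain ⟨δ, ε₁, η, hδ, hε₁, hε₁ζ, hε₁β, hη, Y0, HC⟩ :=
    core4 1 τ (τ / 4) υ lam (lam / υ) (τ + ε) 1 ε (by linarith) (by linarith) (by linarith) (by linarith) hτυ hυτ
      hlam.le (by positivity) (by rw [div_mul_cancel₀ _ hυ0.ne']) hint (by linarith) one_pos hε0
  obtain ⟨Y1, HM⟩ := mer ε₁ υ η g hε₁ (by linarith) hη hg0.le
  obtain ⟨c₁, C₁, hc₁, hC₁, HV0⟩ := mert_q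
  obtain ⟨Y2, HV⟩ := HV0 g hg0.le
  -- numerical conditions
  have hcast : Tendsto (fun N : ℕ => (N : ℝ)) atTop atTop := tendsto_natCast_atTop_atTop
  have v1 := ev_log 1 5 ε hε0
  have v3 : ∀ᶠ N : ℕ in atTop, (2 : ℝ) ≤ (N : ℝ) ^ (τ / 4) :=
    ((tendsto_rpow_atTop (by linarith)).comp hcast).eventually_ge_atTop _
  have v4 := ev_log 1 (8 / (δ * c₁)) (τ / 4) (by linarith)
  have v5 := ev_log 1 (4 / (δ * c₁)) (1 - υ) (by linarith)
  obtain ⟨N₁, hN₁⟩ := eventually_atTop.1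
    (v1.and (v3.and (v4.and (v5.and (eventually_ge_atTop (Y0 + Y1 + Y2 + 3))))))
  refine ⟨τ / 4, δ / 2, by linarith, by positivity, N₁, fun q₀ b H hq hbq hH0 hsize => ?_⟩
  obtain ⟨w1, w3, w4, w5, w8⟩ := hN₁ H hH0
  rw [pow_one] at w1 w4 w5
  have hH3 : (3 : ℝ) ≤ H := by exact_mod_cast (by omega : 3 ≤ H)
  have hH0' : (0 : ℝ) < H := by linarith
  have hH1 : (1 : ℝ) ≤ H := by linarith
  have hlH : 0 < Real.log H := Real.log_pos (by linarith)
  -- the size of `q`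
  have hqg : (q₀ : ℝ) ≤ (H : ℝ) ^ g := by
    refine le_trans ?_ hsize
    have h1 : q₀ ≤ b + q₀ * H := by
      have := Nat.le_mul_of_pos_right q₀ (show 0 < H by omega)
      omega
    exact_mod_cast h1
  obtain ⟨c, hcL, hcD, hcM⟩ := HC H (by omega)
  obtain ⟨a, ha⟩ : ∃ a : ℕ → ℕ, ∀ j : ℕ, a j = q₀ * (0 + j) + b := ⟨_, fun _ => rfl⟩
  have hPZ : ∀ ℓ ∈ PZ H υ, ℓ.Prime := by
    intro ℓ hℓ
    unfold PZ at hℓ
    rw [mem_filter] at hℓ
    exact hℓ.2.1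
  have hrem : |∑ T ∈ (PZ H υ).powerset, c T * ((((Icc 1 H).filter (fun j => ∏ ℓ ∈ T, ℓ ∣ a j)).card : ℝ) -
          (Icc 1 H).card * ∏ ℓ ∈ T, ((rho q₀ ℓ : ℝ) / ℓ))| ≤ (Icc 1 H).card * (H : ℝ) ^ (-ε) := by
    have h1 := rem (PZ H υ) hPZ c (5 * Real.log H) ((H : ℝ) ^ (τ + ε)) q₀ b 0 H hbq
      (by positivity) (by positivity) hcL hcD
    simp_rw [← ha] at h1
    refine h1.trans ?_
    rw [Nat.card_Icc, Nat.add_sub_cancel]
    calc 5 * Real.log H * (H : ℝ) ^ (τ + ε) ≤ (H : ℝ) ^ ε * (H : ℝ) ^ (τ + ε) := by gcongr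
      _ = (H : ℝ) ^ (τ + 2 * ε) := by
          rw [← Real.rpow_add hH0']
          congr 1
          ring
      _ ≤ (H : ℝ) ^ (1 - ε) := by
          apply Real.rpow_le_rpow_of_exponent_le hH1
          rw [hεd]
          linarith
      _ = H * (H : ℝ) ^ (-ε) := by
          rw [sub_eq_add_neg, Real.rpow_add hH0', Real.rpow_one]
  have hmain := hcM (Icc 1 H) a (rho q₀) H (by rw [Real.rpow_one])
    (fun ℓ _ => by unfold rho; split_ifs <;> omega)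
    (fun ℓ hℓ => by have := hℓ.two_le; unfold rho; split_ifs <;> omega)
    (HM H (by omega) q₀ hq hqg) hrem
  rw [Nat.card_Icc, Nat.add_sub_cancel] at hmain
  have hV := (HV H (by omega) q₀ hq hqg).1
  change δ * H * VG q₀ H ≤ _ at hmain
  have hHL : c₁ * (H / Real.log H) ≤ H * VG q₀ H := by
    have hφ : (1 : ℝ) ≤ (q₀ : ℝ) / q₀.totient := by
      have h1 : 0 < q₀.totient := Nat.totient_pos.2 hq
      have h2 : (0 : ℝ) < q₀.totient := by exact_mod_cast h1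
      rw [le_div_iff₀ h2, one_mul]
      exact_mod_cast Nat.totient_le q₀
    calc c₁ * (H / Real.log H) = H * (c₁ * 1 / Real.log H) := by ring
      _ ≤ H * (c₁ * ((q₀ : ℝ) / q₀.totient) / Real.log H) := by gcongr
      _ ≤ _ := mul_le_mul_of_nonneg_left hV hH0'.le
  -- the squares
  obtain ⟨B, hB⟩ : ∃ B : Finset ℕ, B = (Icc 1 H).filter (fun j : ℕ => ∃ q ∈ pr H (τ / 4) υ, q ^ 2 ∣ a j) := ⟨_, rfl⟩
  have hBc : (B.card : ℝ) ≤ δ * c₁ / 2 * (H / Real.log H) := by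
    have h1 : B.card ≤ ∑ q ∈ pr H (τ / 4) υ, ((Icc 1 H).filter (fun j : ℕ => q ^ 2 ∣ a j)).card := by
      refine (Finset.card_le_card (t := (pr H (τ / 4) υ).biUnion
        (fun q => (Icc 1 H).filter (fun j : ℕ => q ^ 2 ∣ a j))) ?_).trans card_biUnion_le
      intro j hj
      rw [hB, mem_filter] at hj
      obtain ⟨hj1, q, hq, hqd⟩ := hj
      rw [mem_biUnion]
      exact ⟨q, hq, mem_filter.2 ⟨hj1, hqd⟩⟩
    have h2 : ∀ q ∈ pr H (τ / 4) υ, ((((Icc 1 H).filter (fun j : ℕ => q ^ 2 ∣ a j)).card : ℕ) : ℝ) ≤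
        H * (1 / (q : ℝ) ^ 2) + 1 := by
      intro q hq
      obtain ⟨h3, h4, h5, h6⟩ := pr_facts (by omega) hq
      by_cases hqp : q ∣ q₀
      · have h7 : (Icc 1 H).filter (fun j : ℕ => q ^ 2 ∣ a j) = ∅ := by
          rw [filter_eq_empty_iff]
          intro j _ hj
          rw [ha] at hj
          have h8 : q ∣ q₀ * (0 + j) + b := (dvd_pow_self q two_ne_zero).trans hj
          have h9 : q ∣ b := (Nat.dvd_add_right (hqp.mul_right _)).1 h8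
          have h10 := Nat.dvd_gcd h9 hqp
          rw [hbq.gcd_eq_one] at h10
          exact h3.one_lt.ne' (Nat.dvd_one.1 h10)
        rw [h7]
        simp only [card_empty, Nat.cast_zero]
        positivity
      · have h7 := cnt (q ^ 2) q₀ b 0 H (pow_pos h3.pos 2)
          (Nat.Coprime.pow_right 2 (((Nat.Prime.coprime_iff_not_dvd h3).2 hqp).symm))
        simp_rw [← ha] at h7
        have h8 := (abs_le.1 h7).2
        push_cast at h8
        rw [mul_one_div]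
        linarith
    have h3 : (B.card : ℝ) ≤ ∑ q ∈ pr H (τ / 4) υ, (H * (1 / (q : ℝ) ^ 2) + 1) := by
      calc (B.card : ℝ) ≤ ∑ q ∈ pr H (τ / 4) υ, ((((Icc 1 H).filter (fun j : ℕ => q ^ 2 ∣ a j)).card : ℕ) : ℝ) := by
            exact_mod_cast h1
        _ ≤ _ := sum_le_sum h2
    have h4 : ∑ q ∈ pr H (τ / 4) υ, ((H : ℝ) * (1 / (q : ℝ) ^ 2) + 1) =
        (H : ℝ) * ∑ q ∈ pr H (τ / 4) υ, 1 / (q : ℝ) ^ 2 + ((pr H (τ / 4) υ).card : ℝ) := by
      rw [mul_sum, sum_add_distrib, sum_const, nsmul_eq_mul, mul_one]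
    have h5 := pr_sq (Y := H) (by omega) (τ / 4) υ w3
    have h6 : ((pr H (τ / 4) υ).card : ℝ) ≤ (H : ℝ) ^ υ := by
      have h7 : pr H (τ / 4) υ ⊆ Icc 1 ⌊(H : ℝ) ^ υ⌋₊ := by
        intro q hq
        obtain ⟨g3, g4, g5, g6⟩ := pr_facts (by omega) hq
        rw [mem_Icc]
        exact ⟨g3.one_le, Nat.le_floor g6.le⟩
      calc ((pr H (τ / 4) υ).card : ℝ) ≤ ((Icc 1 ⌊(H : ℝ) ^ υ⌋₊).card : ℝ) := by exact_mod_cast Finset.card_le_card h7
        _ = (⌊(H : ℝ) ^ υ⌋₊ : ℝ) := by rw [Nat.card_Icc, Nat.add_sub_cancel]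
        _ ≤ _ := Nat.floor_le (by positivity)
    rw [h4] at h3
    refine h3.trans ?_
    have hNζ : (0 : ℝ) < (H : ℝ) ^ (τ / 4) := by positivity
    have hdc : 0 < δ * c₁ := by positivity
    have g1 : (H : ℝ) * (2 / (H : ℝ) ^ (τ / 4)) ≤ δ * c₁ / 4 * (H / Real.log H) := by
      have g2 : 8 * Real.log H ≤ (H : ℝ) ^ (τ / 4) * (δ * c₁) := by
        rw [div_mul_eq_mul_div, div_le_iff₀ hdc] at w4
        exact w4
      rw [show (H : ℝ) * (2 / (H : ℝ) ^ (τ / 4)) = (2 * H) / (H : ℝ) ^ (τ / 4) by ring,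
        show δ * c₁ / 4 * (H / Real.log H) = (δ * c₁ * H / 4) / Real.log H by ring,
        div_le_div_iff₀ hNζ hlH]
      linarith [mul_le_mul_of_nonneg_right g2 hH0'.le]
    have g3 : (H : ℝ) ^ υ ≤ δ * c₁ / 4 * (H / Real.log H) := by
      have g4 : 4 * Real.log H ≤ (H : ℝ) ^ (1 - υ) * (δ * c₁) := by
        rw [div_mul_eq_mul_div, div_le_iff₀ hdc] at w5
        exact w5
      have g5 : (H : ℝ) ^ (1 - υ) * (H : ℝ) ^ υ = H := by
        rw [← Real.rpow_add hH0', sub_add_cancel, Real.rpow_one]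
      rw [show δ * c₁ / 4 * (H / Real.log H) = (δ * c₁ * H / 4) / Real.log H by ring, le_div_iff₀ hlH]
      have g6 := mul_le_mul_of_nonneg_right g4 (show 0 ≤ (H : ℝ) ^ υ by positivity)
      have g7 : (H : ℝ) ^ (1 - υ) * (δ * c₁) * (H : ℝ) ^ υ = δ * c₁ * H := by
        rw [mul_right_comm, g5]
        ring
      linarith
    have g8 : (H : ℝ) * ∑ q ∈ pr H (τ / 4) υ, 1 / (q : ℝ) ^ 2 + ((pr H (τ / 4) υ).card : ℝ) ≤
        H * (2 / (H : ℝ) ^ (τ / 4)) + (H : ℝ) ^ υ := by gcongr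
    linarith
  -- the good points
  obtain ⟨W, hW⟩ : ∃ W : Finset ℕ, W = (Icc 1 H).filter (fun j => 0 < WW H (τ / 4) υ lam (lam / υ) (a j)) := ⟨_, rfl⟩
  have hmain' : δ * H * VG q₀ H ≤ (W.card : ℝ) := by
    rw [hW]
    exact hmain
  have hsub : W ⊆ RG r ((H : ℝ) ^ (τ / 4)) q₀ b H ∪ B := by
    intro j hj
    rw [hW, mem_filter] at hj
    obtain ⟨hj1, hj2⟩ := hj
    by_cases hjB : j ∈ B
    · exact mem_union_right _ hjB
    apply mem_union_left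
    have hjI := mem_Icc.1 hj1
    have haj : a j = b + q₀ * j := by
      rw [ha]
      ring
    have hsz : ((a j : ℕ) : ℝ) ≤ (H : ℝ) ^ S := by
      have h1 : a j ≤ b + q₀ * H := by
        rw [haj]
        exact Nat.add_le_add_left (Nat.mul_le_mul_left _ hjI.2) _
      calc ((a j : ℕ) : ℝ) ≤ ((b + q₀ * H : ℕ) : ℝ) := by exact_mod_cast h1
        _ ≤ (H : ℝ) ^ g := hsize
        _ ≤ (H : ℝ) ^ S := Real.rpow_le_rpow_of_exponent_le hH1 hgS.le
    have halm := almost H (by omega) (τ / 4) υ lam S r hτυ hυ0 (by linarith) hlam hrS (a j)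
      (by
        rw [haj]
        have := Nat.mul_pos hq (show 0 < j by omega)
        omega) hsz hj2 (by
        intro q hq hqd
        apply hjB
        rw [hB, mem_filter]
        exact ⟨hj1, q, hq, hqd⟩)
    rw [haj] at halm
    unfold RG
    rw [mem_filter]
    exact ⟨hj1, halm.1, halm.2⟩
  have hcard : (W.card : ℝ) ≤ (RG r ((H : ℝ) ^ (τ / 4)) q₀ b H).card + B.card := by
    have h1 := (Finset.card_le_card hsub).trans (card_union_le _ _)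
    exact_mod_cast h1
  have hfin := mul_le_mul_of_nonneg_left hHL hδ.le
  linarith

end Pool.Agent.Zk38.AP
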