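import Pool.Agent.Zk38.AP.Gen
import Pool.Agent.Zk41.PY.E

/-!
Szemerédi's theorem relative to the terms of an arithmetic progression without small prime factors, uniformly: a
generalisation of `Pool.Agent.Zk48.AP.Sz` (helper48), where the progressions are `2 p k + 1`.
-/

set_option autoImplicit false

namespace Pool.Agent.Zk38.AP

open Finset Filter Topology Polynomial
open Pool.Agent.Zk41.PY (fn AdmP pol)
open Pool.Agent.Y677.RSZ (rt V)
open Pool.Agent.TH423.SH (PS)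
open Pool.Agent.Zk48.AP (rho cls)
open Pool.Agent.K3h19.RV (Lam)

/-- the polynomial `q X + a` -/
noncomputable def PG (q a : ℕ) : ℤ[X] := C (q : ℤ) * X + C (a : ℤ)

lemma fn_PG (q a : ℕ) (x : ℤ) : fn (PG q a) x = q * x + a := by
  unfold fn PG
  simp

lemma adm_PG (q a : ℕ) (h : Nat.Coprime a q) : AdmP (PG q a) := by
  intro ℓ hℓ
  by_cases hla : ℓ ∣ a
  · refine ⟨1, ?_⟩
    have h1 : (PG q a).eval 1 = ((q + a : ℕ) : ℤ) := by
      unfold PG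
      simp
    rw [h1, Int.natCast_dvd_natCast]
    intro h2
    have h3 : ℓ ∣ q := (Nat.dvd_add_left hla).1 h2
    have h4 := Nat.dvd_gcd hla h3
    rw [h.gcd_eq_one] at h4
    exact hℓ.one_lt.ne' (Nat.dvd_one.1 h4)
  · refine ⟨0, ?_⟩
    have h1 : (PG q a).eval 0 = (a : ℤ) := by
      unfold PG
      simp
    rw [h1, Int.natCast_dvd_natCast]
    exact hla

lemma deg_PG (q a : ℕ) : (PG q a).natDegree ≤ 1 := natDegree_linear_le

lemma coeff_PG (q a : ℕ) (i : ℕ) : |(PG q a).coeff i| ≤ (q : ℤ) + a := by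
  unfold PG
  rw [coeff_add, coeff_C_mul, coeff_X, coeff_C]
  have hq : (0 : ℤ) ≤ q := Int.natCast_nonneg q
  have ha : (0 : ℤ) ≤ a := Int.natCast_nonneg a
  split_ifs with h1 h2 h2
  · omega
  · simp
  · simp
  · simp
    omega

lemma rt_PG (q a ℓ : ℕ) (h : Nat.Coprime a q) (hℓ : ℓ.Prime) : rt (fn (PG q a)) ℓ = rho q ℓ := by
  unfold rt rho
  split_ifs with hlq
  · rw [card_eq_zero, filter_eq_empty_iff]
    intro r _ hr
    rw [fn_PG] at hr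
    have h1 : (ℓ : ℤ) ∣ (q : ℤ) * r := (Int.natCast_dvd_natCast.2 hlq).mul_right _
    have h2 : (ℓ : ℤ) ∣ (a : ℤ) := (Int.dvd_add_right h1).1 hr
    have h3 : ℓ ∣ a := Int.natCast_dvd_natCast.1 h2
    have h4 := Nat.dvd_gcd h3 hlq
    rw [h.gcd_eq_one] at h4
    exact hℓ.one_lt.ne' (Nat.dvd_one.1 h4)
  · obtain ⟨v, hv⟩ := cls ℓ q a 0 hℓ.pos (((Nat.Prime.coprime_iff_not_dvd hℓ).2 hlq).symm)
    rw [card_eq_one]
    refine ⟨v % ℓ, ?_⟩
    ext r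
    rw [mem_filter, mem_range, mem_singleton, fn_PG]
    have h1 := hv r
    rw [zero_add] at h1
    have h2 : (ℓ : ℤ) ∣ (q : ℤ) * (r : ℤ) + a ↔ ℓ ∣ q * r + a := by
      rw [← Int.natCast_dvd_natCast]
      push_cast
      exact Iff.rfl
    rw [h2, h1]
    constructor
    · rintro ⟨h3, h4⟩
      have h5 : r % ℓ = v % ℓ := h4
      rwa [Nat.mod_eq_of_lt h3] at h5
    · rintro rfl
      exact ⟨Nat.mod_lt _ hℓ.pos, Nat.mod_modEq _ _⟩

lemma V_PG (q a H : ℕ) (h : Nat.Coprime a q) : V (fn (PG q a)) 1 H = VG q H := by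
  unfold V VG
  have h1 : PS 1 H = (Icc 1 H).filter Nat.Prime := by
    unfold PS
    apply filter_congr
    intro ℓ _
    constructor
    · exact fun h => h.1
    · exact fun h => ⟨h, fun h1 => h.one_lt.ne' (Nat.dvd_one.1 h1)⟩
  rw [h1]
  apply prod_congr rfl
  intro ℓ hℓ
  rw [rt_PG _ _ _ h (mem_filter.1 hℓ).2]

/-- **Szemerédi's theorem relative to the terms of an arithmetic progression without small prime factors**, uniformly -/
theorem dense_G (l : ℕ) (g κ ρ : ℝ) (hκ : 0 < κ) (hρ : 0 < ρ) :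
    ∃ B H₀ : ℕ, ∀ q a H : ℕ, 0 < q → Nat.Coprime a q → H₀ ≤ H → ((a + q * H : ℕ) : ℝ) ≤ (H : ℝ) ^ g →
      ∀ S : Finset ℕ, S ⊆ Icc 1 H →
      (∀ k ∈ S, ∀ ℓ : ℕ, ℓ.Prime → ℓ ∣ a + q * k → (H : ℝ) ^ ρ ≤ ℓ) →
      κ * (H * VG q H) ≤ S.card →
      ∃ x d : ℕ, 1 ≤ d ∧ (d : ℝ) ≤ Real.log H ^ B ∧ ∀ i < l, x + i * d ∈ S := by
  obtain ⟨G, hG⟩ : ∃ G : ℕ, g + 1 ≤ G := exists_nat_ge _
  obtain ⟨B, H₁, HP⟩ := pol 1 l G (ρ / 2) κ (by positivity) hκ
  refine ⟨B, H₁ + 3, fun q a H hq hqa hH0 hsize S hS hSr hSc => ?_⟩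
  have hH3 : (3 : ℝ) ≤ H := by exact_mod_cast (by omega : 3 ≤ H)
  have hH0' : (0 : ℝ) < H := by linarith
  have hH1 : (1 : ℝ) ≤ H := by linarith
  have hsz : a + q * H ≤ H ^ G := by
    have h1 : ((a + q * H : ℕ) : ℝ) ≤ ((H ^ G : ℕ) : ℝ) := by
      refine hsize.trans ?_
      push_cast
      rw [← Real.rpow_natCast]
      exact Real.rpow_le_rpow_of_exponent_le hH1 (by linarith)
    exact_mod_cast h1
  have hqH : q ≤ q * H := Nat.le_mul_of_pos_right q (by omega)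
  apply HP H (by omega) (PG q a) 0 (adm_PG _ _ hqa) (deg_PG _ _) ?_ (Nat.zero_le _) ?_ S ?_ ?_ ?_
  · intro i
    refine (coeff_PG _ _ i).trans ?_
    have h4 : q + a ≤ H ^ G := by omega
    exact_mod_cast h4
  · intro n hn
    rw [mem_Ioc] at hn
    rw [fn_PG]
    have h1 : (0 : ℤ) < (q : ℤ) * n := by
      have := Nat.mul_pos hq hn.1
      exact_mod_cast this
    have h2 : (0 : ℤ) ≤ a := Int.natCast_nonneg a
    omega
  · intro k hk
    have h1 := mem_Icc.1 (hS hk)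
    rw [mem_Ioc]
    omega
  · intro k hk ℓ hℓ hℓH hℓd
    rw [fn_PG] at hℓd
    have h1 : ℓ ∣ a + q * k := by
      rw [← Int.natCast_dvd_natCast]
      push_cast
      rw [add_comm]
      exact hℓd
    have h2 := hSr k hk ℓ hℓ h1
    have h4 : (H : ℝ) ^ (ρ / 2) < (H : ℝ) ^ ρ := Real.rpow_lt_rpow_of_exponent_lt (by linarith) (by linarith)
    linarith
  · rw [V_PG _ _ _ hqa]
    exact hSc

/-- both parts, with `q / φ(q)` -/
theorem both_G (r : ℕ) (hr : 1 ≤ r) (g : ℝ) (hg0 : 0 < g) (hgL : g < Lam r) :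
    ∃ c : ℝ, 0 < c ∧ ∀ (l : ℕ) (κ ρ : ℝ), 0 < κ → 0 < ρ → ∃ B H₀ : ℕ, ∀ q a H : ℕ, 0 < q →
      Nat.Coprime a q → H₀ ≤ H → ((a + q * H : ℕ) : ℝ) ≤ (H : ℝ) ^ g →
      c * (((q : ℝ) / q.totient) * (H / Real.log H)) ≤ (RG r ((H : ℝ) ^ (1 / 8 : ℝ)) q a H).card ∧
      ∀ S : Finset ℕ, S ⊆ Icc 1 H →
      (∀ k ∈ S, ∀ ℓ : ℕ, ℓ.Prime → ℓ ∣ a + q * k → (H : ℝ) ^ ρ ≤ ℓ) →
      κ * (((q : ℝ) / q.totient) * (H / Real.log H)) ≤ S.card →
      ∃ x d : ℕ, 1 ≤ d ∧ (d : ℝ) ≤ Real.log H ^ B ∧ ∀ i < l, x + i * d ∈ S := by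
  classical
  obtain ⟨ζ, δ, hζ, hδ, H₁, h1⟩ := low_G r hr g hg0 hgL
  obtain ⟨c, C, hc, hC, hM⟩ := mert_q
  obtain ⟨H₂, h2⟩ := hM g hg0.le
  refine ⟨δ * c, by positivity, fun l κ ρ hκ hρ => ?_⟩
  obtain ⟨B, H₃, h3⟩ := dense_G l g (κ / C) ρ (by positivity) hρ
  refine ⟨B, H₁ + H₂ + H₃ + 3, fun q a H hq hqa hH hsize => ?_⟩
  have hH0' : (0 : ℝ) < H := by exact_mod_cast (by omega : 0 < H)
  have hH1' : (1 : ℝ) ≤ H := by exact_mod_cast (by omega : 1 ≤ H)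
  have hqg : (q : ℝ) ≤ (H : ℝ) ^ g := by
    refine le_trans ?_ hsize
    have h1 : q ≤ a + q * H := by
      have := Nat.le_mul_of_pos_right q (show 0 < H by omega)
      omega
    exact_mod_cast h1
  obtain ⟨h4, h5⟩ := h2 H (by omega) q hq hqg
  refine ⟨?_, fun S hS hSr hSc => ?_⟩
  · have h0 : RG r ((H : ℝ) ^ ζ) q a H ⊆ RG r ((H : ℝ) ^ (1 / 8 : ℝ)) q a H := by
      intro k hk
      unfold RG at hk ⊢
      rw [mem_filter] at hk ⊢
      exact ⟨hk.1, hk.2.1, fun ℓ hℓ hd => (Real.rpow_le_rpow_of_exponent_le hH1' hζ).trans (hk.2.2 ℓ hℓ hd)⟩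
    have h00 : ((RG r ((H : ℝ) ^ ζ) q a H).card : ℝ) ≤ (RG r ((H : ℝ) ^ (1 / 8 : ℝ)) q a H).card := by
      exact_mod_cast card_le_card h0
    refine le_trans ?_ ((h1 q a H hq hqa (by omega) hsize).trans h00)
    have h6 := mul_le_mul_of_nonneg_left h4 (show 0 ≤ δ * H by positivity)
    calc δ * c * (((q : ℝ) / q.totient) * (H / Real.log H)) =
        δ * H * (c * ((q : ℝ) / q.totient) / Real.log H) := by ring
      _ ≤ δ * H * VG q H := h6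
      _ = _ := by ring
  · apply h3 q a H hq hqa (by omega) hsize S hS hSr
    refine le_trans ?_ hSc
    have h6 := mul_le_mul_of_nonneg_left h5 (show 0 ≤ κ / C * H by positivity)
    calc κ / C * (H * VG q H) = κ / C * H * VG q H := by ring
      _ ≤ κ / C * H * (C * ((q : ℝ) / q.totient) / Real.log H) := h6
      _ = _ := by field_simp

end Pool.Agent.Zk38.AP
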