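import Pool.Agent.Zk38.AP.Slots

set_option autoImplicit false
set_option linter.unusedSectionVars false

/-! Numerical conditions, and the arguments with a good set of slots: copied from `Pool.Agent.Zk41.P4.MT` (helper41). -/

namespace Pool.Agent.Zk38.AP

open Finset Polynomial Filter
open Pool.Agent.Y677.RSZ (rt Sys rhoT per_mod ev_log V eng_all)
open Pool.Agent.TH423.SH (PS)
open Pool.Agent.W23.DC
open Pool.Agent.Y882
open Pool.Agent.Y882.PX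
open Pool.Agent.Y882.KW
open Pool.Agent.R498.MT

/-- the numerical conditions -/
theorem nums2 (W r n₀ KP H₀ q0 Y₀ NT a : ℕ) (CG c1 c2 ζ υ θ θ' e : ℝ) (hW : 2 ≤ W) (hr : r < W)
    (hζ : 0 < ζ) (hυ : υ < θ') (hθ' : 0 < θ') (hθ : θ' < θ) (hθ1 : θ ≤ 1) (he : 0 < e) :
    ∀ᶠ N : ℕ in atTop, 3 ≤ N ∧ Y₀ ≤ N ∧ n₀ ≤ N ∧ (KP : ℝ) ≤ N ∧ (q0 : ℝ) + 2 ≤ (N : ℝ) ^ ζ ∧
      ((3 * N + W * NT + 1 : ℕ) : ℝ) ≤ (N : ℝ) ^ 2 ∧ CG ≤ (N : ℝ) ^ e ∧
      W * NT + 2 * W + 1 ≤ N ∧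
      c1 * Real.log N ^ a ≤ (N : ℝ) ^ ζ ∧ c2 * Real.log N ^ a ≤ (N : ℝ) ^ (θ' - υ) ∧
      ∃ L : ℕ, W * (L + 1) ≤ ⌊(N : ℝ) ^ θ⌋₊ ∧ (N : ℝ) ^ θ' ≤ L ∧
        H₀ ≤ W * L ∧ W * L ≤ N ∧ (N + r) / W + L ≤ N := by
  have hT := tendsto_natCast_atTop_atTop (R := ℝ)
  have v1 : ∀ᶠ N : ℕ in atTop, (q0 : ℝ) + 2 ≤ (N : ℝ) ^ ζ :=
    ((tendsto_rpow_atTop hζ).comp hT).eventually_ge_atTop _
  have v2 : ∀ᶠ N : ℕ in atTop, CG ≤ (N : ℝ) ^ e :=
    ((tendsto_rpow_atTop he).comp hT).eventually_ge_atTop _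
  have v3 := ev_log a c1 ζ hζ
  have v4 := ev_log a c2 (θ' - υ) (by linarith)
  have v5 : ∀ᶠ N : ℕ in atTop, (5 * W : ℝ) ≤ (N : ℝ) ^ (θ - θ') :=
    ((tendsto_rpow_atTop (by linarith)).comp hT).eventually_ge_atTop _
  have v6 : ∀ᶠ N : ℕ in atTop, (1 : ℝ) + H₀ ≤ (N : ℝ) ^ θ' :=
    ((tendsto_rpow_atTop hθ').comp hT).eventually_ge_atTop _
  filter_upwards [eventually_ge_atTop (3 + r), eventually_ge_atTop Y₀, eventually_ge_atTop n₀,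
    eventually_ge_atTop KP, eventually_ge_atTop (W * NT + 2 * W + 4), v1, v2, v3, v4, v5, v6]
    with N e1 e2 e3 e4 e5 w1 w2 w3 w4 w5 w6
  have hNr : (3 : ℝ) ≤ N := by exact_mod_cast (by omega : 3 ≤ N)
  have hN0 : (0 : ℝ) < N := by linarith
  have hN1 : (1 : ℝ) ≤ N := by linarith
  have hWr : (2 : ℝ) ≤ W := by exact_mod_cast hW
  refine ⟨by omega, e2, e3, by exact_mod_cast e4, w1, ?_, w2, by omega, w3, w4, ?_⟩
  · have h1 : 3 * N + W * NT + 1 ≤ N ^ 2 := by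
      have h2 : 4 ≤ N := by omega
      have h3 : W * NT + 1 ≤ N := by omega
      nlinarith
    exact_mod_cast h1
  · set Q : ℕ := ⌊(N : ℝ) ^ θ⌋₊ with hQ
    have hQ1 : (N : ℝ) ^ θ - 1 < Q := by
      have := Nat.lt_floor_add_one ((N : ℝ) ^ θ)
      linarith
    have hQ2 : (Q : ℝ) ≤ (N : ℝ) ^ θ := Nat.floor_le (by positivity)
    have hsplit : (N : ℝ) ^ θ = (N : ℝ) ^ θ' * (N : ℝ) ^ (θ - θ') := by
      rw [← Real.rpow_add hN0]
      congr 1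
      ring
    have hT1 : (1 : ℝ) ≤ (N : ℝ) ^ θ' := by
      have : (0 : ℝ) ≤ H₀ := Nat.cast_nonneg _
      linarith
    have hQ3 : (5 * W : ℝ) * (N : ℝ) ^ θ' ≤ (N : ℝ) ^ θ := by
      rw [hsplit]
      nlinarith
    have hQW : (Q : ℝ) < W * ((Q / W : ℕ) + 1) := by
      have h1 : Q < W * (Q / W + 1) := by
        have := Nat.lt_mul_div_succ Q (show 0 < W by omega)
        exact this
      exact_mod_cast h1
    have hQW1 : 1 ≤ Q / W := by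
      rw [Nat.le_div_iff_mul_le (by omega), one_mul]
      have h1 : (W : ℝ) ≤ Q := by nlinarith
      exact_mod_cast h1
    obtain ⟨L, hL⟩ : ∃ L : ℕ, L + 1 = Q / W := ⟨Q / W - 1, by omega⟩
    have hLr : ((Q / W : ℕ) : ℝ) = L + 1 := by rw [← hL]; push_cast; rfl
    have hL1 : (N : ℝ) ^ θ' ≤ L := by
      rw [hLr] at hQW
      have h1 : (W : ℝ) * (5 * (N : ℝ) ^ θ') < W * (L + 1 + 1) + 1 := by nlinarith
      have h2 : (W : ℝ) * (5 * (N : ℝ) ^ θ') < W * (L + 1 + 1 + 1) := by nlinarith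
      have h3 := lt_of_mul_lt_mul_left h2 (by linarith)
      linarith
    have hWLQ : W * (L + 1) ≤ Q := by
      rw [hL]
      exact Nat.mul_div_le Q W
    have hQN : Q ≤ N := by
      have h1 : (Q : ℝ) ≤ N := by
        refine hQ2.trans ?_
        calc (N : ℝ) ^ θ ≤ (N : ℝ) ^ (1 : ℝ) :=
              Real.rpow_le_rpow_of_exponent_le hN1 hθ1
          _ = N := Real.rpow_one _
      exact_mod_cast h1
    refine ⟨L, hWLQ, hL1, ?_, ?_, ?_⟩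
    · have h1 : (H₀ : ℝ) ≤ L := by linarith
      have h2 : H₀ ≤ L := by exact_mod_cast h1
      exact h2.trans (Nat.le_mul_of_pos_left _ (by omega))
    · have : W * L ≤ W * (L + 1) := Nat.mul_le_mul_left _ (by omega)
      omega
    · have h1 : (N + r) / W ≤ N / W + 1 := by
        rw [← Nat.add_div_right N (show 0 < W by omega)]
        exact Nat.div_le_div_right (by omega)
      have h2 : L + 1 ≤ N / W := by
        rw [hL]
        exact Nat.div_le_div_right hQN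
      have h3 : 2 * (N / W) ≤ W * (N / W) := Nat.mul_le_mul_right _ hW
      have h4 : W * (N / W) ≤ N := Nat.mul_div_le N W
      omega

/-- sizes of the values of a polynomial -/
theorem size_P2 (Q : ℤ[X]) (KP DP N H E : ℕ) (θ : ℝ) (hθ : 0 < θ) (hE : 2 ≤ θ * E)
    (hKD : ∀ t : ℤ, |((Q.eval t : ℤ) : ℝ)| ≤ KP * (1 + |(t : ℝ)|) ^ DP)
    (hN : 1 ≤ N) (hKP : (KP : ℝ) ≤ N) (hH : (N : ℝ) ^ θ ≤ H) (x : ℕ)
    (hx : ((x + 1 : ℕ) : ℝ) ≤ (N : ℝ) ^ 2) :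
    |Q.eval (x : ℤ)| ≤ (H : ℤ) ^ (E * (DP + 1)) := by
  have hN1 : (1 : ℝ) ≤ N := by exact_mod_cast hN
  have hN0 : (0 : ℝ) < N := by linarith
  have h1 := hKD (x : ℤ)
  have h2 : |((x : ℤ) : ℝ)| = (x : ℝ) := by
    rw [Int.cast_natCast, abs_of_nonneg (Nat.cast_nonneg x)]
  rw [h2] at h1
  push_cast at hx
  have h3 : (KP : ℝ) * (1 + (x : ℝ)) ^ DP ≤ N * ((N : ℝ) ^ 2) ^ DP := by
    have h4 : (1 + (x : ℝ)) ^ DP ≤ ((N : ℝ) ^ 2) ^ DP :=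
      pow_le_pow_left₀ (by positivity) (by linarith) _
    exact mul_le_mul hKP h4 (by positivity) hN0.le
  have h4 : (N : ℝ) * ((N : ℝ) ^ 2) ^ DP ≤ (N : ℝ) ^ (2 * (DP + 1)) := by
    rw [← pow_mul, ← pow_succ']
    exact pow_le_pow_right₀ hN1 (by omega)
  have h5 : (N : ℝ) ^ (2 * (DP + 1)) ≤ (H : ℝ) ^ (E * (DP + 1)) := by
    have h6 : (N : ℝ) ^ (2 * (DP + 1)) ≤ ((N : ℝ) ^ θ) ^ (E * (DP + 1)) := by
      rw [← Real.rpow_natCast ((N : ℝ) ^ θ), ← Real.rpow_mul hN0.le, ← Real.rpow_natCast]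
      apply Real.rpow_le_rpow_of_exponent_le hN1
      push_cast
      have : (0 : ℝ) ≤ (DP : ℝ) + 1 := by positivity
      nlinarith
    exact h6.trans (pow_le_pow_left₀ (by positivity) hH _)
  have h6 : |((Q.eval (x : ℤ) : ℤ) : ℝ)| ≤ (H : ℝ) ^ (E * (DP + 1)) := h1.trans (h3.trans (h4.trans h5))
  exact_mod_cast h6

open Classical in
/-- the arguments with a good set of slots -/
theorem many2 (F G : ℤ → ℤ) (KK q0 W b r M L N k m a : ℕ) (θ ε₁ ζ υ aw bw c V : ℝ)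
    (hSq : ∀ q : ℕ, q.Prime → q0 ≤ q → ∀ N H : ℕ,
      ((((Icc 1 H).filter (fun j : ℕ => ((q ^ 2 : ℕ) : ℤ) ∣ G ((N + j : ℕ) : ℤ))).card : ℕ) : ℝ) ≤
        KK * (H * (1 / (q : ℝ) ^ 2) + 1)) (hW : 0 < W) (hN : 3 ≤ N)
    (hq0 : (q0 : ℝ) + 2 ≤ (N : ℝ) ^ ζ) (t : Fin (2 ^ k) → ℕ)
    (hc : 0 < c) (hV : 0 < V) (hV1 : 1 ≤ Real.log N ^ a * V)
    (hgd : c * (L * V) ≤ ((gd F G N ε₁ ζ υ aw bw W b t m M L).card : ℝ))
    (hL : (N : ℝ) ^ θ ≤ L)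
    (h1 : 8 * (2 ^ k * KK * W) / c * Real.log N ^ a ≤ (N : ℝ) ^ ζ)
    (h2 : 4 * (2 ^ k * KK) / c * Real.log N ^ a ≤ (N : ℝ) ^ (θ - υ)) :
    ∃ (Hs : Finset (Fin (2 ^ k))) (A : Finset ℕ), Hs.card = m ∧
      c / (2 * 2 ^ 2 ^ k) * (L * V) ≤ A.card ∧
      ∀ K ∈ A, K ∈ Ioc M (M + L) ∧ (∀ p : ℕ, p.Prime → (p : ℝ) < (N : ℝ) ^ ε₁ → ∀ i,
          ¬ (p : ℤ) ∣ F ((W * (K + t i) + b : ℕ) : ℤ)) ∧
        ∀ i ∈ Hs, 0 < WW N ζ υ aw bw (G ((W * (K + t i) + b : ℕ) : ℤ)).natAbs ∧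
          ∀ q ∈ pr N ζ υ, ¬ ((q ^ 2 : ℕ) : ℤ) ∣ G ((W * (K + t i) + b : ℕ) : ℤ) := by
  have hNr : (3 : ℝ) ≤ N := by exact_mod_cast hN
  have hN0 : (0 : ℝ) < N := by linarith
  have hlN : 0 < Real.log N := Real.log_pos (by linarith)
  have hL0 : (0 : ℝ) < L := lt_of_lt_of_le (by positivity) hL
  set Bd := (Ioc M (M + L)).filter (fun K => ∃ i, ∃ q ∈ pr N ζ υ,
      ((q ^ 2 : ℕ) : ℤ) ∣ G ((W * (K + t i) + b : ℕ) : ℤ)) with hBd
  set Gd := gd F G N ε₁ ζ υ aw bw W b t m M L with hGd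
  have hbad := bad_le G KK q0 hSq W b M L N t hW ζ υ (by omega) hq0
  have hbad2 : ((2 ^ k : ℕ) : ℝ) * (KK * ((W * L : ℕ) * (2 / (N : ℝ) ^ ζ) + (N : ℝ) ^ υ)) ≤
      c / 2 * (L * V) := by
    have hla : 0 < Real.log N ^ a := by positivity
    rw [div_mul_eq_mul_div, div_le_iff₀ hc] at h1 h2
    have e1 : ((2 ^ k : ℕ) : ℝ) * (KK * ((W * L : ℕ) * (2 / (N : ℝ) ^ ζ))) ≤ c / 4 * (L * V) := by
      have hNζ : (0 : ℝ) < (N : ℝ) ^ ζ := by positivity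
      push_cast
      rw [show (2 : ℝ) ^ k * (KK * (W * L * (2 / (N : ℝ) ^ ζ))) =
        (2 * (2 ^ k * KK * W)) * L / (N : ℝ) ^ ζ by ring, div_le_iff₀ hNζ]
      have e2 : 8 * (2 ^ k * KK * W : ℝ) * L * 1 ≤ 8 * (2 ^ k * KK * W : ℝ) * L *
          (Real.log N ^ a * V) := mul_le_mul_of_nonneg_left hV1 (by positivity)
      have e3 : (8 * (2 ^ k * KK * W) * Real.log N ^ a) * (L * V) ≤ ((N : ℝ) ^ ζ * c) * (L * V) :=
        mul_le_mul_of_nonneg_right h1 (by positivity)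
      linarith
    have e2 : ((2 ^ k : ℕ) : ℝ) * (KK * (N : ℝ) ^ υ) ≤ c / 4 * (L * V) := by
      push_cast
      have e3 : (N : ℝ) ^ υ * (N : ℝ) ^ (θ - υ) ≤ L := by
        rw [← Real.rpow_add hN0]
        refine le_trans (le_of_eq ?_) hL
        congr 1
        ring
      have e4 : (4 * (2 ^ k * KK) * Real.log N ^ a) * ((N : ℝ) ^ υ * V) ≤
          ((N : ℝ) ^ (θ - υ) * c) * ((N : ℝ) ^ υ * V) :=
        mul_le_mul_of_nonneg_right h2 (by positivity)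
      have e5 : ((N : ℝ) ^ υ * (N : ℝ) ^ (θ - υ)) * (c * V) ≤ L * (c * V) :=
        mul_le_mul_of_nonneg_right e3 (by positivity)
      have e6 : 4 * (2 ^ k * KK : ℝ) * (N : ℝ) ^ υ * 1 ≤ 4 * (2 ^ k * KK : ℝ) * (N : ℝ) ^ υ *
          (Real.log N ^ a * V) := mul_le_mul_of_nonneg_left hV1 (by positivity)
      linarith
    rw [mul_add, mul_add]
    linarith
  have hcard : c / 2 * (L * V) ≤ ((Gd \ Bd).card : ℝ) := by
    have h3 : (Gd.card : ℝ) ≤ (Gd \ Bd).card + Bd.card := by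
      have h4 : Gd ⊆ (Gd \ Bd) ∪ Bd := by
        intro x hx
        by_cases hb : x ∈ Bd
        · exact mem_union_right _ hb
        · exact mem_union_left _ (mem_sdiff.2 ⟨hx, hb⟩)
      exact_mod_cast (card_le_card h4).trans (card_union_le _ _)
    have h4 : (Bd.card : ℝ) ≤ c / 2 * (L * V) := by
      refine le_trans ?_ (hbad.trans hbad2)
      rw [hBd]
    linarith
  have hpos : 0 < c / 2 * (L * V) := by positivity
  have hne : (Gd \ Bd).Nonempty := by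
    rw [← card_pos]
    have : (0 : ℝ) < ((Gd \ Bd).card : ℝ) := hpos.trans_le hcard
    exact_mod_cast this
  obtain ⟨Hs, hHs, hle⟩ := pigH (2 ^ k) m (Gd \ Bd) (fun K => univ.filter (fun i =>
      0 < WW N ζ υ aw bw (G ((W * (K + t i) + b : ℕ) : ℤ)).natAbs)) hne (by
    intro K hK
    have h3 := (mem_sdiff.1 hK).1
    rw [hGd] at h3
    unfold Pool.Agent.R498.MT.gd at h3
    rw [mem_filter] at h3
    exact h3.2.2.le)
  refine ⟨Hs, (Gd \ Bd).filter (fun K => Hs ⊆ univ.filter (fun i =>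
      0 < WW N ζ υ aw bw (G ((W * (K + t i) + b : ℕ) : ℤ)).natAbs)), hHs, ?_, ?_⟩
  rotate_left
  · intro K hK
    have hK' := mem_filter.1 hK
    obtain ⟨hK1, hK2⟩ := hK'
    obtain ⟨hK3, hK4⟩ := mem_sdiff.1 hK1
    rw [hGd] at hK3
    unfold Pool.Agent.R498.MT.gd at hK3
    rw [mem_filter] at hK3
    refine ⟨hK3.1, hK3.2.1, ?_⟩
    intro i hi
    have h3 := mem_filter.1 (hK2 hi)
    refine ⟨h3.2, ?_⟩
    intro q hq hqd
    apply hK4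
    rw [hBd, mem_filter]
    exact ⟨hK3.1, i, q, hq, hqd⟩
  · rw [div_mul_eq_mul_div, div_le_iff₀ (by positivity)]
    have h3 : (((Gd \ Bd).card : ℕ) : ℝ) ≤ 2 ^ 2 ^ k *
        (((Gd \ Bd).filter (fun K => Hs ⊆ univ.filter (fun i =>
      0 < WW N ζ υ aw bw (G ((W * (K + t i) + b : ℕ) : ℤ)).natAbs))).card : ℝ) := by
      exact_mod_cast hle
    have h4 : c / 2 * (L * V) * 2 = c * (L * V) := by ring
    linarith

end Pool.Agent.Zk38.AP
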