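import Pool.Agent.Zk38.AP.GenSz

set_option autoImplicit false

/-! Products of few primes in the initial segments of all residue classes: their number, and Szemerédi's theorem. -/

namespace Pool.Agent.Zk38.AP

open Finset Filter
open Pool.Agent.K3h19.RV (Lam lam_three)

/-- sizes -/
lemma mod_size (θ g : ℝ) (hθ : 0 < θ) (hg1 : (1 + θ) / θ < g) : ∃ H₁ : ℕ, ∀ q a H : ℕ, 0 < q → a ≤ q →
    (q : ℝ) ^ θ ≤ H → H₁ ≤ H → ((a + q * H : ℕ) : ℝ) ≤ (H : ℝ) ^ g := by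
  have hT := tendsto_natCast_atTop_atTop (R := ℝ)
  have v1 : ∀ᶠ n : ℕ in atTop, (2 : ℝ) ≤ (n : ℝ) ^ (g - (1 + θ) / θ) :=
    ((tendsto_rpow_atTop (by linarith)).comp hT).eventually_ge_atTop _
  obtain ⟨H₁, hH₁⟩ := eventually_atTop.1 v1
  refine ⟨H₁ + 3, fun q a H hq haq hqH hH => ?_⟩
  have w1 := hH₁ H (by omega)
  have hH3 : (3 : ℝ) ≤ H := by exact_mod_cast (by omega : 3 ≤ H)
  have hH0' : (0 : ℝ) < H := by linarith
  have hq0 : (0 : ℝ) < q := by exact_mod_cast hq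
  have hq1 : (q : ℝ) ≤ (H : ℝ) ^ (1 / θ) := by
    calc (q : ℝ) = ((q : ℝ) ^ θ) ^ (1 / θ) := by
          rw [← Real.rpow_mul hq0.le, mul_one_div_cancel hθ.ne', Real.rpow_one]
      _ ≤ (H : ℝ) ^ (1 / θ) := Real.rpow_le_rpow (by positivity) hqH (by positivity)
  have h3 : ((a + q * H : ℕ) : ℝ) ≤ 2 * (q * H) := by
    have h4 : q ≤ q * H := Nat.le_mul_of_pos_right q (by omega)
    have h5 : a + q * H ≤ 2 * (q * H) := by omega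
    exact_mod_cast h5
  have h4 : (H : ℝ) ^ (1 / θ) * H = (H : ℝ) ^ ((1 + θ) / θ) := by
    have h5 : (1 + θ) / θ = 1 / θ + 1 := by field_simp
    rw [h5, Real.rpow_add hH0', Real.rpow_one]
  calc ((a + q * H : ℕ) : ℝ) ≤ 2 * (q * H) := h3
    _ ≤ (H : ℝ) ^ (g - (1 + θ) / θ) * ((H : ℝ) ^ (1 / θ) * H) := by gcongr
    _ = (H : ℝ) ^ g := by
        rw [h4, ← Real.rpow_add hH0']
        congr 1
        ring

/-- the initial segments with at least `a ^ θ` terms of the classes modulo `a` -/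
theorem classG (r : ℕ) (hr : 1 ≤ r) (θ : ℝ) (hθ : 0 < θ) (h2 : 1 + θ < θ * Lam r) :
    ∃ c : ℝ, 0 < c ∧ ∀ (l : ℕ) (κ ρ : ℝ), 0 < κ → 0 < ρ → ∃ B H₀ : ℕ,
      ∀ q a H : ℕ, 0 < q → Nat.Coprime a q → a ≤ q → (q : ℝ) ^ θ ≤ H → H₀ ≤ H →
      c * (((q : ℝ) / q.totient) * (H / Real.log H)) ≤ (RG r ((H : ℝ) ^ (1 / 8 : ℝ)) q a H).card ∧
      ∀ S : Finset ℕ, S ⊆ Icc 1 H → (∀ k ∈ S, ∀ ℓ : ℕ, ℓ.Prime → ℓ ∣ a + q * k → (H : ℝ) ^ ρ ≤ ℓ) →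
      κ * (((q : ℝ) / q.totient) * (H / Real.log H)) ≤ S.card →
      ∃ x d : ℕ, 1 ≤ d ∧ (d : ℝ) ≤ Real.log H ^ B ∧ ∀ i < l, x + i * d ∈ S := by
  classical
  have hL1 := Lam_posG r hr
  have hL0 : 0 < Lam r := by linarith
  obtain ⟨g, hgd⟩ : ∃ g : ℝ, g = ((1 + θ) / θ + Lam r) / 2 := ⟨_, rfl⟩
  have h1 : (1 + θ) / θ < Lam r := by
    rw [div_lt_iff₀ hθ]
    linarith
  have hg1 : (1 + θ) / θ < g := by rw [hgd]; linarith
  have hg2 : g < Lam r := by rw [hgd]; linarith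
  have hg0 : 0 < g := lt_trans (by positivity) hg1
  obtain ⟨c, hc, hG⟩ := both_G r hr g hg0 hg2
  refine ⟨c, hc, fun l κ ρ hκ hρ => ?_⟩
  obtain ⟨B, H₀, hB⟩ := hG l κ ρ hκ hρ
  obtain ⟨H₁, hH₁⟩ := mod_size θ g hθ hg1
  exact ⟨B, H₀ + H₁, fun q a H hq hqa haq hqH hH => hB q a H hq hqa (by omega) (hH₁ q a H hq haq hqH (by omega))⟩

end Pool.Agent.Zk38.AP
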