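import Pool.Agent.Zk38.AP.GenSz

set_option autoImplicit false

/-! Products of few primes in the arithmetic progressions inside Oppermann's intervals: their number, and Szemerédi's
theorem. -/

namespace Pool.Agent.Zk38.AP

open Finset Filter
open Pool.Agent.K3h19.RV (Lam lam_three)

/-- conversion between `H` and `n` -/
theorem oppG (r : ℕ) (hr : 1 ≤ r) (ϑ : ℝ) (h2 : 2 < ϑ * Lam r) :
    ∃ c : ℝ, 0 < c ∧ ∀ (l : ℕ) (κ ρ : ℝ), 0 < κ → 0 < ρ → ∃ B : ℕ, ∀ᶠ n : ℕ in atTop,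
      ∀ q a H : ℕ, 0 < q → Nat.Coprime a q → a + q * H ≤ n ^ 2 + n → (n : ℝ) ^ ϑ ≤ H →
      c * (((q : ℝ) / q.totient) * (H / Real.log n)) ≤ (RG r ((n : ℝ) ^ (ϑ / 8)) q a H).card ∧
      ∀ S : Finset ℕ, S ⊆ Icc 1 H → (∀ k ∈ S, ∀ ℓ : ℕ, ℓ.Prime → ℓ ∣ a + q * k → (n : ℝ) ^ ρ ≤ ℓ) →
      κ * (((q : ℝ) / q.totient) * (H / Real.log n)) ≤ S.card →
      ∃ x d : ℕ, 1 ≤ d ∧ (d : ℝ) ≤ Real.log n ^ B ∧ ∀ i < l, x + i * d ∈ S := by
  classical
  have hL1 := Lam_posG r hr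
  have hL0 : 0 < Lam r := by linarith
  have hϑ0 : 0 < ϑ := by
    by_contra h0
    push Not at h0
    nlinarith
  obtain ⟨g, hgd⟩ : ∃ g : ℝ, g = (2 / ϑ + Lam r) / 2 := ⟨_, rfl⟩
  have h1 : 2 / ϑ < Lam r := by
    rw [div_lt_iff₀ hϑ0]
    linarith
  have hg1 : 2 / ϑ < g := by rw [hgd]; linarith
  have hg2 : g < Lam r := by rw [hgd]; linarith
  have hg0 : 0 < g := lt_trans (by positivity) hg1
  have hgϑ : 2 < ϑ * g := by
    rw [div_lt_iff₀ hϑ0] at hg1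
    linarith
  obtain ⟨c, hc, hG⟩ := both_G r hr g hg0 hg2
  refine ⟨c / 3, by positivity, fun l κ ρ hκ hρ => ?_⟩
  obtain ⟨B, H₀, hB⟩ := hG l (κ * ϑ) (ρ / 3) (by positivity) (by positivity)
  refine ⟨2 * B, ?_⟩
  have hT := tendsto_natCast_atTop_atTop (R := ℝ)
  have v1 : ∀ᶠ n : ℕ in atTop, (2 : ℝ) ≤ (n : ℝ) ^ (ϑ * g - 2) :=
    ((tendsto_rpow_atTop (by linarith)).comp hT).eventually_ge_atTop _
  have v2 : ∀ᶠ n : ℕ in atTop, ((H₀ + 3 : ℕ) : ℝ) ≤ (n : ℝ) ^ ϑ :=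
    ((tendsto_rpow_atTop hϑ0).comp hT).eventually_ge_atTop _
  have v3 : ∀ᶠ n : ℕ in atTop, (3 : ℝ) ≤ Real.log n :=
    (Real.tendsto_log_atTop.comp hT).eventually_ge_atTop _
  filter_upwards [v1, v2, v3, eventually_ge_atTop 3] with n w1 w2 w3 w4 q a H hq hqa hsz hH
  have hn3 : (3 : ℝ) ≤ n := by exact_mod_cast w4
  have hn0 : (0 : ℝ) < n := by linarith
  have hn1 : (1 : ℝ) ≤ n := by linarith
  have hH0 : H₀ + 3 ≤ H := by exact_mod_cast w2.trans hH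
  have hH3 : (3 : ℝ) ≤ H := by exact_mod_cast (by omega : 3 ≤ H)
  have hH0' : (0 : ℝ) < H := by linarith
  have hlH : 0 < Real.log H := Real.log_pos (by linarith)
  have hln : 0 < Real.log n := by linarith
  have hsq : n * 3 ≤ n ^ 2 := by nlinarith
  have hu : ((n ^ 2 + n : ℕ) : ℝ) ≤ 2 * (n : ℝ) ^ 2 := by
    have h1 : n ^ 2 + n ≤ 2 * n ^ 2 := by omega
    exact_mod_cast h1
  have hsize : ((a + q * H : ℕ) : ℝ) ≤ (H : ℝ) ^ g := by
    calc ((a + q * H : ℕ) : ℝ) ≤ ((n ^ 2 + n : ℕ) : ℝ) := by exact_mod_cast hsz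
      _ ≤ 2 * (n : ℝ) ^ 2 := hu
      _ ≤ (n : ℝ) ^ (ϑ * g - 2) * (n : ℝ) ^ 2 := mul_le_mul_of_nonneg_right w1 (by positivity)
      _ = (n : ℝ) ^ (ϑ * g) := by
          rw [← Real.rpow_natCast (n : ℝ) 2, ← Real.rpow_add hn0]
          congr 1
          push_cast
          ring
      _ = ((n : ℝ) ^ ϑ) ^ g := Real.rpow_mul hn0.le _ _
      _ ≤ (H : ℝ) ^ g := Real.rpow_le_rpow (by positivity) hH hg0.le
  have hHn : (H : ℝ) ≤ (n : ℝ) ^ 3 := by
    have h1 : H ≤ q * H := Nat.le_mul_of_pos_left H hq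
    have h2 : H ≤ n ^ 2 + n := by omega
    have h3 : (H : ℝ) ≤ ((n ^ 2 + n : ℕ) : ℝ) := by exact_mod_cast h2
    have h4 : 2 * (n : ℝ) ^ 2 ≤ (n : ℝ) ^ 3 := by
      have := sq_nonneg (n : ℝ)
      nlinarith
    linarith
  have hlog3 : Real.log H ≤ 3 * Real.log n := by
    calc Real.log H ≤ Real.log ((n : ℝ) ^ 3) := Real.log_le_log hH0' hHn
      _ = 3 * Real.log n := by
          rw [Real.log_pow]
          push_cast
          ring
  have hlogϑ : ϑ * Real.log n ≤ Real.log H := by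
    rw [← Real.log_rpow hn0]
    exact Real.log_le_log (by positivity) hH
  have hφ0 : (0 : ℝ) ≤ (q : ℝ) / q.totient := by positivity
  obtain ⟨h3, h4⟩ := hB q a H hq hqa (by omega) hsize
  refine ⟨?_, fun S hS hSr hSc => ?_⟩
  · have h5 : c / 3 * (((q : ℝ) / q.totient) * (H / Real.log n)) ≤ c * (((q : ℝ) / q.totient) * (H / Real.log H)) := by
      have h6 : (H : ℝ) / Real.log n / 3 ≤ H / Real.log H := by
        rw [div_div]
        exact div_le_div_of_nonneg_left hH0'.le hlH (by linarith)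
      have h7 := mul_le_mul_of_nonneg_left h6 (show 0 ≤ c * ((q : ℝ) / q.totient) by positivity)
      calc c / 3 * (((q : ℝ) / q.totient) * (H / Real.log n)) =
          c * ((q : ℝ) / q.totient) * ((H : ℝ) / Real.log n / 3) := by ring
        _ ≤ _ := h7
        _ = _ := by ring
    refine (h5.trans h3).trans ?_
    have h8 : RG r ((H : ℝ) ^ (1 / 8 : ℝ)) q a H ⊆ RG r ((n : ℝ) ^ (ϑ / 8)) q a H := by
      intro k hk
      unfold RG at hk ⊢
      rw [mem_filter] at hk ⊢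
      refine ⟨hk.1, hk.2.1, fun ℓ hℓ hd => le_trans ?_ (hk.2.2 ℓ hℓ hd)⟩
      rw [show ϑ / 8 = ϑ * (1 / 8) by ring, Real.rpow_mul hn0.le]
      exact Real.rpow_le_rpow (by positivity) hH (by norm_num)
    exact_mod_cast card_le_card h8
  · have h9 : ∀ k ∈ S, ∀ ℓ : ℕ, ℓ.Prime → ℓ ∣ a + q * k → (H : ℝ) ^ (ρ / 3) ≤ ℓ := by
      intro k hk ℓ hℓ hd
      refine le_trans ?_ (hSr k hk ℓ hℓ hd)
      calc (H : ℝ) ^ (ρ / 3) ≤ ((n : ℝ) ^ 3) ^ (ρ / 3) := Real.rpow_le_rpow hH0'.le hHn (by positivity)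
        _ = (n : ℝ) ^ ρ := by
            rw [← Real.rpow_natCast (n : ℝ) 3, ← Real.rpow_mul hn0.le]
            congr 1
            push_cast
            field_simp
    obtain ⟨x, d, g1, g2, g3⟩ := h4 S hS h9 (by
      refine le_trans ?_ hSc
      have h6 : ϑ * ((H : ℝ) / Real.log H) ≤ H / Real.log n := by
        rw [show ϑ * ((H : ℝ) / Real.log H) = (ϑ * H) / Real.log H by ring, div_le_div_iff₀ hlH hln]
        have := mul_le_mul_of_nonneg_left hlogϑ hH0'.le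
        linarith
      have h7 := mul_le_mul_of_nonneg_left h6 (show 0 ≤ κ * ((q : ℝ) / q.totient) by positivity)
      calc κ * ϑ * (((q : ℝ) / q.totient) * (H / Real.log H)) =
          κ * ((q : ℝ) / q.totient) * (ϑ * ((H : ℝ) / Real.log H)) := by ring
        _ ≤ _ := h7
        _ = _ := by ring)
    refine ⟨x, d, g1, g2.trans ?_, g3⟩
    rw [pow_mul]
    apply pow_le_pow_left₀ hlH.le
    nlinarith

end Pool.Agent.Zk38.AP
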