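import Pool.Agent.Zk38.AP.GenSz
import Pool.Agent.Y882.SI.Eng

/-!
Richert's theorem in almost all short intervals of every arithmetic progression with coprime first term and difference,
uniformly: a generalisation of `Pool.Agent.Zk48.AP.SI` (helper48), where the progressions are `2 p k + 1`.
-/

set_option autoImplicit false

namespace Pool.Agent.Zk38.AP

open Finset Filter Topology Polynomial
open Pool.Agent.Zk41.PY (fn)
open Pool.Agent.Y677.RSZ (rt ev_log)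
open Pool.Agent.W23.DC
open Pool.Agent.Y882
open Pool.Agent.Y882.PX
open Pool.Agent.Y882.KW
open Pool.Agent.Y882.SI (engI pos lo)
open Pool.Agent.K3h19.RV (Lam)
open Pool.Agent.Zk48.AP (mer cnt pr_facts pr_sq)

open Classical in
/-- few positions with many bad values (from `Pool.Agent.Y882.SI.Sq` of the starting library) -/
theorem bad_posG (Pr : ℕ → Prop) (X h : ℕ) (t : ℝ) (ht : 0 < t) :
    (((Icc 1 X).filter (fun N => (h : ℝ) / t <
      (((Icc 1 h).filter (fun j => Pr (N + j))).card : ℝ))).card : ℝ) ≤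
      t * (((Icc 1 (X + h)).filter Pr).card : ℝ) := by
  rcases Nat.eq_zero_or_pos h with h0 | h0
  · subst h0
    simp only [Nat.cast_zero, zero_div]
    have : (Icc 1 X).filter (fun N => (0 : ℝ) <
      (((Icc 1 0).filter (fun j => Pr (N + j))).card : ℝ)) = ∅ := by
      apply filter_eq_empty_iff.2
      intro N _
      simp
    rw [this]
    simp only [card_empty, Nat.cast_zero]
    positivity
  have hh : (0 : ℝ) < h := by exact_mod_cast h0
  set A := (Icc 1 X).filter (fun N => (h : ℝ) / t <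
      (((Icc 1 h).filter (fun j => Pr (N + j))).card : ℝ)) with hA
  have h1 : (A.card : ℝ) * (h / t) ≤ ∑ N ∈ Icc 1 X, (((Icc 1 h).filter (fun j => Pr (N + j))).card : ℝ) := by
    calc (A.card : ℝ) * (h / t) = ∑ N ∈ A, (h / t : ℝ) := by rw [sum_const, nsmul_eq_mul]
      _ ≤ ∑ N ∈ A, (((Icc 1 h).filter (fun j => Pr (N + j))).card : ℝ) := by
          apply sum_le_sum
          intro N hN
          rw [hA, mem_filter] at hN
          exact hN.2.le
      _ ≤ _ := sum_le_sum_of_subset_of_nonneg (filter_subset _ _) (fun _ _ _ => Nat.cast_nonneg _)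
  have h2 : ∑ N ∈ Icc 1 X, (((Icc 1 h).filter (fun j => Pr (N + j))).card : ℝ) ≤
      h * (((Icc 1 (X + h)).filter Pr).card : ℝ) := by
    have h3 : ∑ N ∈ Icc 1 X, (((Icc 1 h).filter (fun j => Pr (N + j))).card : ℝ) =
        ∑ j ∈ Icc 1 h, (((Icc 1 X).filter (fun N => Pr (N + j))).card : ℝ) := by
      simp_rw [card_filter]
      push_cast
      rw [sum_comm]
    rw [h3]
    calc ∑ j ∈ Icc 1 h, (((Icc 1 X).filter (fun N => Pr (N + j))).card : ℝ) ≤
        ∑ j ∈ Icc 1 h, (((Icc 1 (X + h)).filter Pr).card : ℝ) := by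
          apply sum_le_sum
          intro j hj
          rw [mem_Icc] at hj
          have h4 : ((Icc 1 X).filter (fun N => Pr (N + j))).card ≤ ((Icc 1 (X + h)).filter Pr).card := by
            apply card_le_card_of_injOn (fun N => N + j)
            · intro N hN
              rw [mem_coe, mem_filter, mem_Icc] at hN
              show N + j ∈ _
              rw [mem_coe, mem_filter, mem_Icc]
              exact ⟨⟨by omega, by omega⟩, hN.2⟩
            · intro x _ y _ hxy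
              simpa using hxy
          exact_mod_cast h4
      _ = _ := by
          rw [sum_const, nsmul_eq_mul, Nat.card_Icc]
          simp
  have h3 := h1.trans h2
  rw [mul_div_assoc', div_le_iff₀ ht] at h3
  have h4 : (A.card : ℝ) * h ≤ (t * (((Icc 1 (X + h)).filter Pr).card : ℝ)) * h := by
    calc (A.card : ℝ) * h ≤ h * (((Icc 1 (X + h)).filter Pr).card : ℝ) * t := h3
      _ = _ := by ring
  exact le_of_mul_le_mul_right h4 hh

lemma ro_PG (q a ℓ : ℕ) (h : Nat.Coprime a q) (hℓ : ℓ.Prime) : ro (PG q a) 0 ℓ = Pool.Agent.Zk48.AP.rho q ℓ := by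
  rw [ro_eq, ← rt_PG q a ℓ h hℓ]
  unfold rt fn
  simp

lemma evalG (q a k : ℕ) : ((PG q a).eval (k : ℤ)).natAbs = a + q * k := by
  have h1 := fn_PG q a (k : ℤ)
  unfold fn at h1
  rw [h1]
  have h2 : ((q : ℤ) * (k : ℤ) + a) = ((a + q * k : ℕ) : ℤ) := by
    push_cast
    ring
  rw [h2, Int.natAbs_natCast]

/-- terms with the square of a medium prime -/
def BdG (q₀ b X : ℕ) (ζ υ : ℝ) (k : ℕ) : Prop := ∃ q ∈ pr X ζ υ, q ^ 2 ∣ b + q₀ * k

lemma bd_countG (q₀ b X M : ℕ) (hbq : Nat.Coprime b q₀) (hX : 2 ≤ X) (ζ υ : ℝ) (h2 : (2 : ℝ) ≤ (X : ℝ) ^ ζ)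
    [DecidablePred (BdG q₀ b X ζ υ)] :
    (((Icc 1 M).filter (BdG q₀ b X ζ υ)).card : ℝ) ≤ M * (2 / (X : ℝ) ^ ζ) + (X : ℝ) ^ υ := by
  classical
  have h1 : ((Icc 1 M).filter (BdG q₀ b X ζ υ)).card ≤
      ∑ q ∈ pr X ζ υ, ((Icc 1 M).filter (fun j : ℕ => q ^ 2 ∣ q₀ * (0 + j) + b)).card := by
    refine (Finset.card_le_card (t := (pr X ζ υ).biUnion
      (fun q => (Icc 1 M).filter (fun j : ℕ => q ^ 2 ∣ q₀ * (0 + j) + b))) ?_).trans card_biUnion_le
    intro j hj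
    rw [mem_filter] at hj
    obtain ⟨hj1, q, hq, hqd⟩ := hj
    rw [mem_biUnion]
    refine ⟨q, hq, mem_filter.2 ⟨hj1, ?_⟩⟩
    rw [zero_add, add_comm]
    exact hqd
  have h3 : ∀ q ∈ pr X ζ υ, ((((Icc 1 M).filter (fun j : ℕ => q ^ 2 ∣ q₀ * (0 + j) + b)).card : ℕ) : ℝ) ≤
      M * (1 / (q : ℝ) ^ 2) + 1 := by
    intro q hq
    obtain ⟨h3, h4, h5, h6⟩ := pr_facts hX hq
    by_cases hqp : q ∣ q₀
    · have h7 : (Icc 1 M).filter (fun j : ℕ => q ^ 2 ∣ q₀ * (0 + j) + b) = ∅ := by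
        rw [filter_eq_empty_iff]
        intro j _ hj
        have h8 : q ∣ q₀ * (0 + j) + b := (dvd_pow_self q two_ne_zero).trans hj
        have h9 : q ∣ b := (Nat.dvd_add_right (hqp.mul_right _)).1 h8
        have h10 := Nat.dvd_gcd h9 hqp
        rw [hbq.gcd_eq_one] at h10
        exact h3.one_lt.ne' (Nat.dvd_one.1 h10)
      rw [h7]
      simp only [card_empty, Nat.cast_zero]
      positivity
    · have h7 := cnt (q ^ 2) q₀ b 0 M (pow_pos h3.pos 2)
        (Nat.Coprime.pow_right 2 (((Nat.Prime.coprime_iff_not_dvd h3).2 hqp).symm))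
      have h8 := (abs_le.1 h7).2
      push_cast at h8 ⊢
      rw [mul_one_div]
      linarith
  have h5 := pr_sq (Y := X) hX ζ υ h2
  have h6 : ((pr X ζ υ).card : ℝ) ≤ (X : ℝ) ^ υ := by
    have h7 : pr X ζ υ ⊆ Icc 1 ⌊(X : ℝ) ^ υ⌋₊ := by
      intro q hq
      obtain ⟨g3, g4, g5, g6⟩ := pr_facts hX hq
      rw [mem_Icc]
      exact ⟨g3.one_le, Nat.le_floor g6.le⟩
    calc ((pr X ζ υ).card : ℝ) ≤ ((Icc 1 ⌊(X : ℝ) ^ υ⌋₊).card : ℝ) := by exact_mod_cast Finset.card_le_card h7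
      _ = (⌊(X : ℝ) ^ υ⌋₊ : ℝ) := by rw [Nat.card_Icc, Nat.add_sub_cancel]
      _ ≤ _ := Nat.floor_le (by positivity)
  calc (((Icc 1 M).filter (BdG q₀ b X ζ υ)).card : ℝ) ≤
        ∑ q ∈ pr X ζ υ, ((((Icc 1 M).filter (fun j : ℕ => q ^ 2 ∣ q₀ * (0 + j) + b)).card : ℕ) : ℝ) := by
        exact_mod_cast h1
    _ ≤ ∑ q ∈ pr X ζ υ, ((M : ℝ) * (1 / (q : ℝ) ^ 2) + 1) := sum_le_sum h3
    _ = (M : ℝ) * ∑ q ∈ pr X ζ υ, 1 / (q : ℝ) ^ 2 + ((pr X ζ υ).card : ℝ) := by
        rw [mul_sum, sum_add_distrib, sum_const, nsmul_eq_mul, mul_one]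
    _ ≤ _ := by gcongr

set_option maxHeartbeats 1600000 in
/-- **Almost all short intervals**, in every progression -/
theorem low_SIG (r : ℕ) (hr : 1 ≤ r) (g t ε : ℝ) (hg0 : 0 < g) (ht0 : 0 < t) (ht : t ≤ 4 / 5)
    (hgL : g < t * Lam r) (hε : 0 < ε) :
    ∃ c : ℝ, 0 < c ∧ ∃ N₀ : ℕ, ∀ q a X H : ℕ, 0 < q → Nat.Coprime a q → N₀ ≤ X →
      ((a + q * (X + H) : ℕ) : ℝ) ≤ (X : ℝ) ^ g → (X : ℝ) ^ ε ≤ H → H ≤ X →
      (((Icc 1 X).filter (fun N => ((RG r ((X : ℝ) ^ (t / 4)) q (a + q * N) H).card : ℝ) <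
        c * (((q : ℝ) / q.totient) * (H / Real.log X)))).card : ℝ) ≤
        (X : ℝ) ^ (max 1 (2 * t) + ε) / H + (X : ℝ) ^ (1 - t / 4 + ε) := by
  classical
  have hL1 := Lam_posG r hr
  have hL0 : 0 < Lam r := by linarith
  obtain ⟨υ, lam, S, hτυ, hυτ, hlam, hgS, hrS, hint⟩ := Pool.Agent.Zk41.P4.richertD r hr g t hg0 ht0 hgL
  have hυ0 : 0 < υ := by linarith
  obtain ⟨δ, ε₁, η, hδ, hε₁, hε₁ζ, hε₁β, hη, Y0, HE⟩ := engI 1 1 t (t / 4) υ lam (lam / υ) (ε / 2)
    one_pos (by linarith) (by linarith) (by linarith) (by linarith) hτυ hυτ hlam.le (by positivity)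
    (by rw [div_mul_cancel₀ _ hυ0.ne']) hint (by linarith)
  obtain ⟨Y1, HM⟩ := mer ε₁ υ η g hε₁ (by linarith) hη hg0.le
  obtain ⟨c₁, C₁, hc₁, hC₁, HV0⟩ := mert_q
  obtain ⟨Y2, HV⟩ := HV0 g hg0.le
  have hcast : Tendsto (fun N : ℕ => (N : ℝ)) atTop atTop := tendsto_natCast_atTop_atTop
  have v3 : ∀ᶠ N : ℕ in atTop, (2 : ℝ) ≤ (N : ℝ) ^ (t / 4) :=
    ((tendsto_rpow_atTop (by linarith)).comp hcast).eventually_ge_atTop _
  have v4 := ev_log 1 (2 / (δ * c₁)) (ε / 2) (by linarith)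
  have v5 : ∀ᶠ N : ℕ in atTop, (5 : ℝ) ≤ (N : ℝ) ^ (ε / 2) :=
    ((tendsto_rpow_atTop (by linarith)).comp hcast).eventually_ge_atTop _
  obtain ⟨N₁, hN₁⟩ := eventually_atTop.1
    (v3.and (v4.and (v5.and (eventually_ge_atTop (Y0 + Y1 + Y2 + 3)))))
  refine ⟨δ * c₁ / 2, by positivity, N₁, fun q a X H hq hqa hX0 hsize hXε hHX => ?_⟩
  obtain ⟨w3, w4, w5, w8⟩ := hN₁ X hX0
  rw [pow_one] at w4
  have hX3 : (3 : ℝ) ≤ X := by exact_mod_cast (by omega : 3 ≤ X)
  have hX0' : (0 : ℝ) < X := by linarith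
  have hX1 : (1 : ℝ) ≤ X := by linarith
  have hlX : 0 < Real.log X := Real.log_pos (by linarith)
  have hXε0 : 0 < (X : ℝ) ^ ε := by positivity
  have hH0' : (0 : ℝ) < H := by linarith
  have hH1 : 0 < H := by exact_mod_cast hH0'
  have hqg : (q : ℝ) ≤ (X : ℝ) ^ g := by
    refine le_trans ?_ hsize
    have h1 : q ≤ a + q * (X + H) := by
      have := Nat.le_mul_of_pos_right q (show 0 < X + H by omega)
      omega
    exact_mod_cast h1
  have hro : ∀ ℓ : ℕ, ℓ.Prime → ro (PG q a) 0 ℓ = Pool.Agent.Zk48.AP.rho q ℓ := fun ℓ hℓ => ro_PG _ _ _ hqa hℓ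
  have hMer : Mer (pr X ε₁ υ) (tt X) (fun ℓ => (ro (PG q a) 0 ℓ : ℝ) / ℓ) ε₁ υ η := by
    have h1 := HM X (by omega) q hq hqg
    intro x y hx hxy hy
    have h2 := h1 x y hx hxy hy
    refine le_trans (le_of_eq ?_) h2
    congr 2
    apply sum_congr rfl
    intro ℓ hℓ
    rw [mem_filter] at hℓ
    have h3 := hro ℓ (pr_facts (by omega) hℓ.1).1
    show (ro (PG q a) 0 ℓ : ℝ) / ℓ = (Pool.Agent.Zk48.AP.rho q ℓ : ℝ) / ℓ
    rw [h3]
  have hA := HE X (by omega) (PG q a) X H X (fun ℓ hℓ => by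
      rw [hro ℓ hℓ]
      unfold Pool.Agent.Zk48.AP.rho
      split_ifs <;> omega) hH1 (by rw [Real.rpow_one]) hMer
  have hlo : lo (PG q a) X = VG q X := by
    unfold lo VG
    apply prod_congr rfl
    intro ℓ hℓ
    rw [hro ℓ (mem_filter.1 hℓ).2]
  have hV := (HV X (by omega) q hq hqg).1
  rw [← hlo] at hV
  have hφ : (1 : ℝ) ≤ (q : ℝ) / q.totient := by
    have h1 : 0 < q.totient := Nat.totient_pos.2 hq
    have h2 : (0 : ℝ) < q.totient := by exact_mod_cast h1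
    rw [le_div_iff₀ h2, one_mul]
    exact_mod_cast Nat.totient_le q
  obtain ⟨Q, hQ⟩ : ∃ Q : ℝ, Q = (q : ℝ) / q.totient := ⟨_, rfl⟩
  rw [← hQ] at hV hφ ⊢
  obtain ⟨T, hT⟩ : ∃ T : ℝ, T = (X : ℝ) ^ (ε / 2) := ⟨_, rfl⟩
  have hT0 : 0 < T := by rw [hT]; positivity
  have hB := bad_posG (BdG q a X (t / 4) υ) X H T hT0
  have hBc := bd_countG q a X (X + H) hqa (by omega) (t / 4) υ w3
  obtain ⟨A1, hA1⟩ : ∃ A1 : Finset ℕ, A1 = (Icc 1 X).filter (fun N =>
    ((pos (PG q a) X (t / 4) υ lam (lam / υ) H N).card : ℝ) < δ * H * lo (PG q a) X) := ⟨_, rfl⟩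
  obtain ⟨A2, hA2⟩ : ∃ A2 : Finset ℕ, A2 = (Icc 1 X).filter (fun N => (H : ℝ) / T <
      (((Icc 1 H).filter (fun j => BdG q a X (t / 4) υ (N + j))).card : ℝ)) := ⟨_, rfl⟩
  rw [← hA1] at hA
  rw [← hA2] at hB
  have hdc : 0 < δ * c₁ := by positivity
  have hsub : (Icc 1 X).filter (fun N => ((RG r ((X : ℝ) ^ (t / 4)) q (a + q * N) H).card : ℝ) <
      δ * c₁ / 2 * (Q * (H / Real.log X))) ⊆ A1 ∪ A2 := by
    intro N hN
    rw [mem_filter] at hN
    rw [mem_union]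
    by_contra hcon
    push Not at hcon
    obtain ⟨hc1, hc2⟩ := hcon
    have g1 : δ * H * lo (PG q a) X ≤ ((pos (PG q a) X (t / 4) υ lam (lam / υ) H N).card : ℝ) := by
      by_contra h'
      exact hc1 (by rw [hA1, mem_filter]; exact ⟨hN.1, not_le.1 h'⟩)
    have g2 : (((Icc 1 H).filter (fun j => BdG q a X (t / 4) υ (N + j))).card : ℝ) ≤ (H : ℝ) / T := by
      by_contra h'
      exact hc2 (by rw [hA2, mem_filter]; exact ⟨hN.1, not_le.1 h'⟩)
    have hNX : N ≤ X := (mem_Icc.1 hN.1).2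
    have g3 : (pos (PG q a) X (t / 4) υ lam (lam / υ) H N).card ≤
        (RG r ((X : ℝ) ^ (t / 4)) q (a + q * N) H).card +
          ((Icc 1 H).filter (fun j => BdG q a X (t / 4) υ (N + j))).card := by
      refine (card_le_card ?_).trans (card_union_le _ _)
      intro j hj
      unfold pos at hj
      rw [mem_filter] at hj
      obtain ⟨hj1, hj5⟩ := hj
      have hjI := mem_Icc.1 hj1
      rw [evalG] at hj5
      rw [mem_union]
      by_cases hb : BdG q a X (t / 4) υ (N + j)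
      · exact Or.inr (mem_filter.2 ⟨hj1, hb⟩)
      · left
        have e : a + q * (N + j) = a + q * N + q * j := by ring
        have hsz : ((a + q * (N + j) : ℕ) : ℝ) ≤ (X : ℝ) ^ S := by
          have h1 : a + q * (N + j) ≤ a + q * (X + H) :=
            Nat.add_le_add_left (Nat.mul_le_mul_left _ (by omega)) _
          calc ((a + q * (N + j) : ℕ) : ℝ) ≤ ((a + q * (X + H) : ℕ) : ℝ) := by exact_mod_cast h1
            _ ≤ (X : ℝ) ^ g := hsize
            _ ≤ (X : ℝ) ^ S := Real.rpow_le_rpow_of_exponent_le hX1 hgS.le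
        have halm := almost X (by omega) (t / 4) υ lam S r hτυ hυ0 (by linarith) hlam hrS
          (a + q * (N + j)) (by
            have := Nat.mul_pos hq (show 0 < N + j by omega)
            omega) hsz hj5 (by
            intro p hp hpd
            exact hb ⟨p, hp, hpd⟩)
        rw [e] at halm
        unfold RG
        rw [mem_filter]
        exact ⟨hj1, halm.1, halm.2⟩
    have g3r : ((pos (PG q a) X (t / 4) υ lam (lam / υ) H N).card : ℝ) ≤
        ((RG r ((X : ℝ) ^ (t / 4)) q (a + q * N) H).card : ℝ) +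
          (((Icc 1 H).filter (fun j => BdG q a X (t / 4) υ (N + j))).card : ℝ) := by exact_mod_cast g3
    have g5 : δ * c₁ * (Q * (H / Real.log X)) ≤ δ * H * lo (PG q a) X := by
      calc δ * c₁ * (Q * (H / Real.log X)) = δ * H * (c₁ * Q / Real.log X) := by ring
        _ ≤ _ := mul_le_mul_of_nonneg_left hV (by positivity)
    have g6 : (H : ℝ) / T ≤ δ * c₁ / 2 * (Q * (H / Real.log X)) := by
      have g61 : (H : ℝ) / T ≤ δ * c₁ / 2 * (H / Real.log X) := by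
        rw [← hT, div_mul_eq_mul_div, div_le_iff₀ hdc] at w4
        rw [div_le_iff₀ hT0, show δ * c₁ / 2 * (H / Real.log X) * T = (T * (δ * c₁) * H / 2) / Real.log X by ring,
          le_div_iff₀ hlX]
        linarith [mul_le_mul_of_nonneg_right w4 hH0'.le]
      refine g61.trans ?_
      apply mul_le_mul_of_nonneg_left _ (by positivity)
      have h0 : 0 ≤ (H : ℝ) / Real.log X := by positivity
      linarith [mul_le_mul_of_nonneg_right hφ h0]
    have g8 : δ * c₁ * (Q * (H / Real.log X)) = 2 * (δ * c₁ / 2 * (Q * (H / Real.log X))) := by ring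
    linarith [hN.2]
  have hcard : (((Icc 1 X).filter (fun N => ((RG r ((X : ℝ) ^ (t / 4)) q (a + q * N) H).card : ℝ) <
      δ * c₁ / 2 * (Q * (H / Real.log X)))).card : ℝ) ≤ A1.card + A2.card := by
    exact_mod_cast (card_le_card hsub).trans (card_union_le _ _)
  have hm1 : (X : ℝ) ≤ (X : ℝ) ^ (max 1 (2 * t)) := by
    calc (X : ℝ) = (X : ℝ) ^ (1 : ℝ) := (Real.rpow_one _).symm
      _ ≤ _ := Real.rpow_le_rpow_of_exponent_le hX1 (le_max_left _ _)
  have hm2 : (X : ℝ) ^ (2 * t) ≤ (X : ℝ) ^ (max 1 (2 * t)) :=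
    Real.rpow_le_rpow_of_exponent_le hX1 (le_max_right _ _)
  have hm0 : 0 < (X : ℝ) ^ (max 1 (2 * t)) := by positivity
  have r1 : (A1.card : ℝ) ≤ (X : ℝ) ^ (max 1 (2 * t) + ε) / H := by
    refine hA.trans ?_
    calc (X + (X : ℝ) ^ (2 * t)) / H * (X : ℝ) ^ (ε / 2) ≤
        (T * (X : ℝ) ^ (max 1 (2 * t))) / H * (X : ℝ) ^ (ε / 2) := by
          apply mul_le_mul_of_nonneg_right _ (by positivity)
          apply div_le_div_of_nonneg_right _ hH0'.le
          have : 2 ≤ T := by rw [hT]; linarith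
          nlinarith
      _ = (X : ℝ) ^ (max 1 (2 * t)) * ((X : ℝ) ^ (ε / 2) * (X : ℝ) ^ (ε / 2)) / H := by
          rw [hT]
          ring
      _ = _ := by
          rw [← Real.rpow_add hX0', ← Real.rpow_add hX0', add_halves]
  have r2 : (A2.card : ℝ) ≤ (X : ℝ) ^ (1 - t / 4 + ε) := by
    refine hB.trans ?_
    have hHX' : (H : ℝ) ≤ X := by exact_mod_cast hHX
    have e1 : ((X + H : ℕ) : ℝ) * (2 / (X : ℝ) ^ (t / 4)) ≤ 4 * (X : ℝ) ^ (1 - t / 4) := by
      have e2 : (X : ℝ) ^ (1 - t / 4) = X / (X : ℝ) ^ (t / 4) := by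
        rw [Real.rpow_sub hX0', Real.rpow_one]
      rw [e2]
      have e3 : (0 : ℝ) < (X : ℝ) ^ (t / 4) := by positivity
      push_cast
      rw [mul_div_assoc', mul_div_assoc', div_le_div_iff_of_pos_right e3]
      linarith
    have e4 : (X : ℝ) ^ υ ≤ (X : ℝ) ^ (1 - t / 4) :=
      Real.rpow_le_rpow_of_exponent_le hX1 (by linarith)
    calc T * (((Icc 1 (X + H)).filter (BdG q a X (t / 4) υ)).card : ℝ) ≤
        T * (((X + H : ℕ) : ℝ) * (2 / (X : ℝ) ^ (t / 4)) + (X : ℝ) ^ υ) :=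
          mul_le_mul_of_nonneg_left hBc hT0.le
      _ ≤ T * (5 * (X : ℝ) ^ (1 - t / 4)) := by
          apply mul_le_mul_of_nonneg_left _ hT0.le
          linarith
      _ ≤ T * (T * (X : ℝ) ^ (1 - t / 4)) := by
          apply mul_le_mul_of_nonneg_left _ hT0.le
          apply mul_le_mul_of_nonneg_right _ (by positivity)
          rw [hT]
          exact w5
      _ = _ := by
          rw [hT, ← mul_assoc, ← Real.rpow_add hX0', ← Real.rpow_add hX0']
          congr 1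
          ring
  linarith

/-- both parts -/
theorem both_SIG (r : ℕ) (hr : 1 ≤ r) (g t ε : ℝ) (hg0 : 0 < g) (ht0 : 0 < t) (ht : t ≤ 4 / 5)
    (hgL : g < t * Lam r) (hε : 0 < ε) :
    ∃ c : ℝ, 0 < c ∧ ∀ (l : ℕ) (κ ρ : ℝ), 0 < κ → 0 < ρ → ∃ B N₀ : ℕ, ∀ q a X H : ℕ, 0 < q → Nat.Coprime a q →
      N₀ ≤ X → ((a + q * (X + H) : ℕ) : ℝ) ≤ (X : ℝ) ^ g → (X : ℝ) ^ ε ≤ H → H ≤ X →
      (((Icc 1 X).filter (fun N => ((RG r ((X : ℝ) ^ (t / 4)) q (a + q * N) H).card : ℝ) <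
        c * (((q : ℝ) / q.totient) * (H / Real.log X)))).card : ℝ) ≤
        (X : ℝ) ^ (max 1 (2 * t) + ε) / H + (X : ℝ) ^ (1 - t / 4 + ε) ∧
      ∀ N : ℕ, N ≤ X → ∀ S : Finset ℕ, S ⊆ Icc 1 H →
      (∀ k ∈ S, ∀ ℓ : ℕ, ℓ.Prime → ℓ ∣ a + q * N + q * k → (X : ℝ) ^ ρ ≤ ℓ) →
      κ * (((q : ℝ) / q.totient) * (H / Real.log X)) ≤ S.card →
      ∃ x d : ℕ, 1 ≤ d ∧ (d : ℝ) ≤ Real.log X ^ B ∧ ∀ i < l, x + i * d ∈ S := by
  classical
  obtain ⟨c, hc, N₁, h1⟩ := low_SIG r hr g t ε hg0 ht0 ht hgL hε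
  obtain ⟨c₂, C, hc₂, hC, hM⟩ := mert_q
  obtain ⟨N₂, h2⟩ := hM (g / ε) (by positivity)
  refine ⟨c, hc, fun l κ ρ hκ hρ => ?_⟩
  obtain ⟨B, N₃, h3⟩ := dense_G l (g / ε) (κ * ε / C) ρ (by positivity) hρ
  have hcast : Tendsto (fun N : ℕ => (N : ℝ)) atTop atTop := tendsto_natCast_atTop_atTop
  obtain ⟨N₄, hN₄⟩ := eventually_atTop.1
    (((tendsto_rpow_atTop hε).comp hcast).eventually_ge_atTop ((N₂ + N₃ + 3 : ℕ) : ℝ))
  refine ⟨B, N₁ + N₄ + 3, fun q a X H hq hqa hX hsize hXε hHX => ⟨h1 q a X H hq hqa (by omega) hsize hXε hHX, ?_⟩⟩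
  intro N hN S hS hSr hSc
  have hH0 : N₂ + N₃ + 3 ≤ H := by exact_mod_cast (hN₄ X (by omega)).trans hXε
  have hX3 : (3 : ℝ) ≤ X := by exact_mod_cast (by omega : 3 ≤ X)
  have hX0 : (0 : ℝ) < X := by linarith
  have hH3 : (3 : ℝ) ≤ H := by exact_mod_cast (by omega : 3 ≤ H)
  have hlX : 0 < Real.log X := Real.log_pos (by linarith)
  have hlH : 0 < Real.log H := Real.log_pos (by linarith)
  have hHXr : (H : ℝ) ≤ X := by exact_mod_cast hHX
  have hlog : ε * Real.log X ≤ Real.log H := by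
    rw [← Real.log_rpow hX0]
    exact Real.log_le_log (by positivity) hXε
  have hcop : Nat.Coprime (a + q * N) q := by
    rw [Nat.coprime_add_mul_left_left]
    exact hqa
  have hXH : (X : ℝ) ^ g ≤ (H : ℝ) ^ (g / ε) := by
    calc (X : ℝ) ^ g = ((X : ℝ) ^ ε) ^ (g / ε) := by
          rw [← Real.rpow_mul hX0.le]
          congr 1
          field_simp
      _ ≤ _ := Real.rpow_le_rpow (by positivity) hXε (by positivity)
  have hsz : ((a + q * N + q * H : ℕ) : ℝ) ≤ (H : ℝ) ^ (g / ε) := by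
    refine le_trans ?_ (hsize.trans hXH)
    have : a + q * N + q * H ≤ a + q * (X + H) := by
      have h5 : q * N ≤ q * X := Nat.mul_le_mul_left _ hN
      have h6 : q * (X + H) = q * X + q * H := by ring
      omega
    exact_mod_cast this
  have hqg : (q : ℝ) ≤ (H : ℝ) ^ (g / ε) := by
    refine le_trans ?_ hsz
    have h1 : q ≤ a + q * N + q * H := by
      have := Nat.le_mul_of_pos_right q (show 0 < H by omega)
      omega
    exact_mod_cast h1
  have hVu := (h2 H (by omega) q hq hqg).2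
  obtain ⟨x, d, hd1, hd2, hxd⟩ := h3 q (a + q * N) H hq hcop (by omega) hsz S hS
    (fun k hk ℓ hℓ hd => (Real.rpow_le_rpow (by positivity) hHXr hρ.le).trans (hSr k hk ℓ hℓ hd)) (by
      refine le_trans ?_ hSc
      have hQ0 : (0 : ℝ) ≤ (q : ℝ) / q.totient := by positivity
      calc κ * ε / C * (H * VG q H) ≤ κ * ε / C * (H * (C * ((q : ℝ) / q.totient) / Real.log H)) := by gcongr
        _ = κ * ((q : ℝ) / q.totient * (H * ε / Real.log H)) := by
            field_simp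
        _ ≤ κ * (((q : ℝ) / q.totient) * (H / Real.log X)) := by
            apply mul_le_mul_of_nonneg_left _ hκ.le
            apply mul_le_mul_of_nonneg_left _ hQ0
            rw [div_le_div_iff₀ hlH hlX]
            calc (H : ℝ) * ε * Real.log X = H * (ε * Real.log X) := by ring
              _ ≤ H * Real.log H := mul_le_mul_of_nonneg_left hlog (Nat.cast_nonneg _))
  exact ⟨x, d, hd1, hd2.trans (pow_le_pow_left₀ hlH.le (Real.log_le_log (by linarith) hHXr) B), hxd⟩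

end Pool.Agent.Zk38.AP
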