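import Pool.Agent.Zk38.AP.SIGR

set_option autoImplicit false

/-! Products of few primes in almost all blocks of consecutive terms of the arithmetic progressions. -/

namespace Pool.Agent.Zk38.AP

open Finset Filter
open Pool.Agent.K3h19.RV (Lam)

/-- few bad positions, hence few bad blocks -/
theorem blocks_count (r : ℕ) (z c' : ℝ) (q a X k : ℕ) (hk : 0 < k) (m : ℝ)
    (hm : m ≤ c') [DecidablePred fun i : ℕ => ((RG r z q (a + q * (i * (X / k))) (X / k)).card : ℝ) < m]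
    [DecidablePred fun N : ℕ => ((RG r z q (a + q * N) (X / k / 2)).card : ℝ) < c'] :
    ((range k).filter (fun i => ((RG r z q (a + q * (i * (X / k))) (X / k)).card : ℝ) < m)).card * (X / k / 2) ≤
      ((Icc 1 X).filter (fun N => ((RG r z q (a + q * N) (X / k / 2)).card : ℝ) < c')).card := by
  classical
  obtain ⟨L, hL⟩ : ∃ L : ℕ, L = X / k := ⟨_, rfl⟩
  obtain ⟨H, hH⟩ : ∃ H : ℕ, H = L / 2 := ⟨_, rfl⟩
  simp only [← hL, ← hH]
  have hkL : k * L ≤ X := by rw [hL]; exact Nat.mul_div_le X k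
  have hH2 : 2 * H ≤ L := by rw [hH]; exact Nat.mul_div_le L 2
  rw [show ((range k).filter (fun i => ((RG r z q (a + q * (i * L)) L).card : ℝ) < m)).card * H =
    (((range k).filter (fun i => ((RG r z q (a + q * (i * L)) L).card : ℝ) < m)) ×ˢ Icc 1 H).card by
      rw [card_product, Nat.card_Icc, Nat.add_sub_cancel]]
  apply card_le_card_of_injOn (fun x => x.1 * L + x.2)
  · rintro ⟨i, j⟩ hx
    rw [mem_coe, mem_product, mem_filter, mem_range, mem_Icc] at hx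
    obtain ⟨⟨hi, hbad⟩, hj1, hj2⟩ := hx
    simp only at hi hbad hj1 hj2
    show i * L + j ∈ _
    rw [mem_coe, mem_filter, mem_Icc]
    have h1 : (i + 1) * L ≤ k * L := Nat.mul_le_mul_right _ hi
    have h2 : (i + 1) * L = i * L + L := by ring
    refine ⟨⟨by omega, by omega⟩, lt_of_le_of_lt ?_ (hbad.trans_le hm)⟩
    have h3 : (RG r z q (a + q * (i * L + j)) H).card ≤ (RG r z q (a + q * (i * L)) L).card := by
      apply card_le_card_of_injOn (fun y => j + y)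
      · intro y hy
        have hy' : y ∈ RG r z q (a + q * (i * L + j)) H := hy
        unfold RG at hy'
        rw [mem_filter, mem_Icc] at hy'
        obtain ⟨⟨g1, g2⟩, g3, g4⟩ := hy'
        have e : a + q * (i * L + j) + q * y = a + q * (i * L) + q * (j + y) := by ring
        rw [e] at g3 g4
        show j + y ∈ RG r z q (a + q * (i * L)) L
        unfold RG
        rw [mem_filter, mem_Icc]
        exact ⟨⟨by omega, by omega⟩, g3, g4⟩
      · intro y _ y' _ hyy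
        simpa using hyy
    exact_mod_cast h3
  · rintro ⟨i, j⟩ hx ⟨i', j'⟩ hx' hxx
    rw [mem_coe, mem_product, mem_filter, mem_range, mem_Icc] at hx hx'
    obtain ⟨⟨hi, -⟩, hj1, hj2⟩ := hx
    obtain ⟨⟨hi', -⟩, hj1', hj2'⟩ := hx'
    simp only at hi hj1 hj2 hi' hj1' hj2' hxx
    have hij : i = i' := by
      rcases lt_trichotomy i i' with h | h | h
      · exfalso
        have h1 : (i + 1) * L ≤ i' * L := Nat.mul_le_mul_right _ h
        have h2 : (i + 1) * L = i * L + L := by ring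
        omega
      · exact h
      · exfalso
        have h1 : (i' + 1) * L ≤ i * L := Nat.mul_le_mul_right _ h
        have h2 : (i' + 1) * L = i' * L + L := by ring
        omega
    subst hij
    have : j = j' := by omega
    rw [this]

open Classical in
/-- **Almost all blocks** -/
theorem blocksG (r : ℕ) (hr : 1 ≤ r) (g t β : ℝ) (hg0 : 0 < g) (ht0 : 0 < t) (ht : t ≤ 4 / 5)
    (hgL : g < t * Lam r) (_hβ0 : 0 ≤ β) (hβ : β + max 1 (2 * t) < 2) :
    ∃ c δ : ℝ, 0 < c ∧ 0 < δ ∧ ∀ (l : ℕ) (κ ρ : ℝ), 0 < κ → 0 < ρ → ∃ B N₀ : ℕ, ∀ q a X k : ℕ, 0 < q →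
      Nat.Coprime a q → N₀ ≤ X → 2 * ((a + q * X : ℕ) : ℝ) ≤ (X : ℝ) ^ g → 1 ≤ k → (k : ℝ) ≤ (X : ℝ) ^ β →
      (((range k).filter (fun i => ((RG r ((X : ℝ) ^ (t / 4)) q (a + q * (i * (X / k))) (X / k)).card : ℝ) <
        c * (((q : ℝ) / q.totient) * (((X / k : ℕ) : ℝ) / Real.log X)))).card : ℝ) ≤ k * (X : ℝ) ^ (-δ) ∧
      ∀ i < k, ∀ S : Finset ℕ, S ⊆ Icc 1 (X / k) →
      (∀ j ∈ S, ∀ ℓ : ℕ, ℓ.Prime → ℓ ∣ a + q * (i * (X / k)) + q * j → (X : ℝ) ^ ρ ≤ ℓ) →
      κ * (((q : ℝ) / q.totient) * (((X / k : ℕ) : ℝ) / Real.log X)) ≤ S.card →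
      ∃ x d : ℕ, 1 ≤ d ∧ (d : ℝ) ≤ Real.log X ^ B ∧ ∀ i < l, x + i * d ∈ S := by
  obtain ⟨M, hM⟩ : ∃ M : ℝ, M = max 1 (2 * t) := ⟨_, rfl⟩
  have hM1 : 1 ≤ M := by rw [hM]; exact le_max_left _ _
  rw [← hM] at hβ
  obtain ⟨ε, hε0, hε1, hε2⟩ : ∃ ε : ℝ, 0 < ε ∧ 8 * ε ≤ 2 - M - β ∧ 16 * ε ≤ t :=
    ⟨min ((2 - M - β) / 8) (t / 16), lt_min (by linarith) (by linarith),
      by linarith [min_le_left ((2 - M - β) / 8) (t / 16)], by linarith [min_le_right ((2 - M - β) / 8) (t / 16)]⟩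
  obtain ⟨c, hc, hmain⟩ := both_SIG r hr g t ε hg0 ht0 ht hgL hε0
  refine ⟨c / 3, ε, by positivity, hε0, fun l κ ρ hκ hρ => ?_⟩
  obtain ⟨B, N₁, hB⟩ := hmain l κ ρ hκ hρ
  have hcast : Tendsto (fun N : ℕ => (N : ℝ)) atTop atTop := tendsto_natCast_atTop_atTop
  have v1 : ∀ᶠ N : ℕ in atTop, (42 : ℝ) ≤ (N : ℝ) ^ ε :=
    ((tendsto_rpow_atTop hε0).comp hcast).eventually_ge_atTop _
  obtain ⟨N₂, hN₂⟩ := eventually_atTop.1 (v1.and (eventually_ge_atTop (N₁ + 3)))
  refine ⟨B, N₂, fun q a X k hq hqa hX hsize hk1 hkβ => ?_⟩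
  obtain ⟨w1, w2⟩ := hN₂ X hX
  have hX3 : (3 : ℝ) ≤ X := by exact_mod_cast (by omega : 3 ≤ X)
  have hX0 : (0 : ℝ) < X := by linarith
  have hX1 : (1 : ℝ) ≤ X := by linarith
  have hk0 : (0 : ℝ) < k := by exact_mod_cast hk1
  have hlX : 0 < Real.log X := Real.log_pos (by linarith)
  obtain ⟨L, hL⟩ : ∃ L : ℕ, L = X / k := ⟨_, rfl⟩
  obtain ⟨H, hH⟩ : ∃ H : ℕ, H = L / 2 := ⟨_, rfl⟩
  -- sizes
  have hXk : (X : ℝ) ^ (8 * ε) * k ≤ X := by
    calc (X : ℝ) ^ (8 * ε) * k ≤ (X : ℝ) ^ (8 * ε) * (X : ℝ) ^ β :=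
          mul_le_mul_of_nonneg_left hkβ (by positivity)
      _ = (X : ℝ) ^ (8 * ε + β) := by rw [← Real.rpow_add hX0]
      _ ≤ (X : ℝ) ^ (1 : ℝ) := Real.rpow_le_rpow_of_exponent_le hX1 (by linarith)
      _ = X := Real.rpow_one _
  have hX8 : (42 : ℝ) * (X : ℝ) ^ ε ≤ (X : ℝ) ^ (8 * ε) := by
    calc (42 : ℝ) * (X : ℝ) ^ ε ≤ (X : ℝ) ^ ε * (X : ℝ) ^ ε := mul_le_mul_of_nonneg_right w1 (by positivity)
      _ = (X : ℝ) ^ (2 * ε) := by
          rw [← Real.rpow_add hX0]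
          congr 1
          ring
      _ ≤ _ := Real.rpow_le_rpow_of_exponent_le hX1 (by linarith)
  have hXL : (X : ℝ) < (L + 1) * k := by
    have h1 : X < (L + 1) * k := by
      rw [hL]
      exact (Nat.div_lt_iff_lt_mul hk1).1 (Nat.lt_succ_self _)
    exact_mod_cast h1
  have hL42 : (42 : ℝ) * (X : ℝ) ^ ε < L + 1 := by
    have h1 : (42 : ℝ) * (X : ℝ) ^ ε * k < (L + 1) * k := by
      calc (42 : ℝ) * (X : ℝ) ^ ε * k ≤ (X : ℝ) ^ (8 * ε) * k := mul_le_mul_of_nonneg_right hX8 hk0.le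
        _ ≤ X := hXk
        _ < _ := hXL
    exact lt_of_mul_lt_mul_right h1 hk0.le
  have hL6 : 6 ≤ L := by
    have h1 : (6 : ℝ) ≤ L := by nlinarith
    exact_mod_cast h1
  have hLr : (6 : ℝ) ≤ L := by exact_mod_cast hL6
  have h3H : (L : ℝ) ≤ 3 * H := by
    have : L ≤ 3 * H := by omega
    exact_mod_cast this
  have hHε : (X : ℝ) ^ ε ≤ H := by
    have h1 : (0 : ℝ) < (X : ℝ) ^ ε := by positivity
    linarith
  have hLε : (X : ℝ) ^ ε ≤ L := by
    have h1 : H ≤ L := by omega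
    exact hHε.trans (by exact_mod_cast h1)
  have hLX : L ≤ X := by
    rw [hL]
    exact Nat.div_le_self _ _
  have hHX : H ≤ X := by omega
  have hH0 : (0 : ℝ) < H := by
    have h1 : (0 : ℝ) < (X : ℝ) ^ ε := by positivity
    linarith
  have hXH : (X : ℝ) ≤ 6 * k * H := by
    have h1 : (L : ℝ) + 1 ≤ 2 * L := by linarith
    calc (X : ℝ) ≤ (L + 1) * k := hXL.le
      _ ≤ (2 * L) * k := mul_le_mul_of_nonneg_right h1 hk0.le
      _ ≤ (2 * (3 * H)) * k := mul_le_mul_of_nonneg_right (by linarith) hk0.le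
      _ = _ := by ring
  have hsz : ∀ Y : ℕ, Y ≤ X → ((a + q * (X + Y) : ℕ) : ℝ) ≤ (X : ℝ) ^ g := by
    intro Y hY
    refine le_trans ?_ hsize
    have h1 : a + q * (X + Y) ≤ 2 * (a + q * X) := by
      have h2 : q * (X + Y) ≤ q * (X + X) := Nat.mul_le_mul_left _ (by omega)
      have h3 : q * (X + X) = q * X + q * X := by ring
      omega
    calc ((a + q * (X + Y) : ℕ) : ℝ) ≤ ((2 * (a + q * X) : ℕ) : ℝ) := by exact_mod_cast h1
      _ = _ := by push_cast; ring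
  have hQ0 : (0 : ℝ) ≤ (q : ℝ) / q.totient := by positivity
  refine ⟨?_, ?_⟩
  · obtain ⟨hA, -⟩ := hB q a X H hq hqa (by omega) (hsz H hHX) hHε hHX
    have hcnt := blocks_count r ((X : ℝ) ^ (t / 4)) (c * (((q : ℝ) / q.totient) * (H / Real.log X))) q a X k hk1
      (c / 3 * (((q : ℝ) / q.totient) * (((X / k : ℕ) : ℝ) / Real.log X))) (by
        rw [← hL]
        have h1 : (L : ℝ) / Real.log X ≤ 3 * (H / Real.log X) := by
          rw [mul_div_assoc']
          exact div_le_div_of_nonneg_right h3H hlX.le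
        calc c / 3 * (((q : ℝ) / q.totient) * (L / Real.log X)) ≤
            c / 3 * (((q : ℝ) / q.totient) * (3 * (H / Real.log X))) := by gcongr
          _ = _ := by ring)
    rw [← hL, ← hH] at hcnt
    obtain ⟨b, hb⟩ : ∃ b : ℕ, b = ((range k).filter (fun i => ((RG r ((X : ℝ) ^ (t / 4)) q (a + q * (i * (X / k)))
        (X / k)).card : ℝ) < c / 3 * (((q : ℝ) / q.totient) * (((X / k : ℕ) : ℝ) / Real.log X)))).card := ⟨_, rfl⟩
    rw [← hL] at hb
    rw [← hb] at hcnt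
    rw [← hL, ← hb]
    have h1 : (b : ℝ) * H ≤ (X : ℝ) ^ (M + ε) / H + (X : ℝ) ^ (1 - t / 4 + ε) := by
      rw [← hM] at hA
      refine le_trans ?_ hA
      exact_mod_cast hcnt
    -- the final inequality
    have e1 : (X : ℝ) ^ (M + ε) / H * (1 / H) ≤ k * (36 * (X : ℝ) ^ (-(7 * ε))) := by
      have e2 : (1 : ℝ) / H ≤ 6 * k / X := by
        rw [div_le_div_iff₀ hH0 hX0]
        linarith
      have e3 : 0 ≤ (1 : ℝ) / H := by positivity
      calc (X : ℝ) ^ (M + ε) / H * (1 / H) = (X : ℝ) ^ (M + ε) * ((1 / H) * (1 / H)) := by ring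
        _ ≤ (X : ℝ) ^ (M + ε) * ((6 * k / X) * (6 * k / X)) := by gcongr
        _ = k * (36 * ((X : ℝ) ^ (M + ε) * k / (X * X))) := by
            field_simp
            ring
        _ ≤ k * (36 * (X : ℝ) ^ (-(7 * ε))) := by
            apply mul_le_mul_of_nonneg_left _ hk0.le
            apply mul_le_mul_of_nonneg_left _ (by norm_num)
            rw [div_le_iff₀ (by positivity)]
            calc (X : ℝ) ^ (M + ε) * k ≤ (X : ℝ) ^ (M + ε) * (X : ℝ) ^ β :=
                  mul_le_mul_of_nonneg_left hkβ (by positivity)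
              _ = (X : ℝ) ^ (M + ε + β) := by rw [← Real.rpow_add hX0]
              _ ≤ (X : ℝ) ^ (-(7 * ε) + 1 + 1) := Real.rpow_le_rpow_of_exponent_le hX1 (by linarith)
              _ = (X : ℝ) ^ (-(7 * ε)) * (X * X) := by
                  rw [Real.rpow_add hX0, Real.rpow_add hX0, Real.rpow_one]
                  ring
    have e4 : (X : ℝ) ^ (1 - t / 4 + ε) * (1 / H) ≤ k * (6 * (X : ℝ) ^ (-(3 * ε))) := by
      have e2 : (1 : ℝ) / H ≤ 6 * k / X := by
        rw [div_le_div_iff₀ hH0 hX0]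
        linarith
      calc (X : ℝ) ^ (1 - t / 4 + ε) * (1 / H) ≤ (X : ℝ) ^ (1 - t / 4 + ε) * (6 * k / X) := by gcongr
        _ = k * (6 * ((X : ℝ) ^ (1 - t / 4 + ε) / X)) := by ring
        _ ≤ k * (6 * (X : ℝ) ^ (-(3 * ε))) := by
            apply mul_le_mul_of_nonneg_left _ hk0.le
            apply mul_le_mul_of_nonneg_left _ (by norm_num)
            rw [div_le_iff₀ hX0]
            calc (X : ℝ) ^ (1 - t / 4 + ε) ≤ (X : ℝ) ^ (-(3 * ε) + 1) :=
                  Real.rpow_le_rpow_of_exponent_le hX1 (by linarith)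
              _ = _ := by rw [Real.rpow_add hX0, Real.rpow_one]
    have e5 : (b : ℝ) = (b * H) * (1 / H) := by field_simp
    have e6 : (X : ℝ) ^ (-(7 * ε)) ≤ (X : ℝ) ^ (-(3 * ε)) := Real.rpow_le_rpow_of_exponent_le hX1 (by linarith)
    have e7 : 42 * (X : ℝ) ^ (-(3 * ε)) ≤ (X : ℝ) ^ (-ε) := by
      calc 42 * (X : ℝ) ^ (-(3 * ε)) ≤ (X : ℝ) ^ ε * (X : ℝ) ^ (-(3 * ε)) :=
            mul_le_mul_of_nonneg_right w1 (by positivity)
        _ = (X : ℝ) ^ (-(2 * ε)) := by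
            rw [← Real.rpow_add hX0]
            congr 1
            ring
        _ ≤ _ := Real.rpow_le_rpow_of_exponent_le hX1 (by linarith)
    calc (b : ℝ) = (b * H) * (1 / H) := e5
      _ ≤ ((X : ℝ) ^ (M + ε) / H + (X : ℝ) ^ (1 - t / 4 + ε)) * (1 / H) :=
          mul_le_mul_of_nonneg_right h1 (by positivity)
      _ = (X : ℝ) ^ (M + ε) / H * (1 / H) + (X : ℝ) ^ (1 - t / 4 + ε) * (1 / H) := by ring
      _ ≤ k * (36 * (X : ℝ) ^ (-(7 * ε))) + k * (6 * (X : ℝ) ^ (-(3 * ε))) := add_le_add e1 e4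
      _ = k * (36 * (X : ℝ) ^ (-(7 * ε)) + 6 * (X : ℝ) ^ (-(3 * ε))) := by ring
      _ ≤ k * (X : ℝ) ^ (-ε) := mul_le_mul_of_nonneg_left (by linarith) hk0.le
  · intro i hi S hS hSr hSc
    obtain ⟨-, hSz⟩ := hB q a X L hq hqa (by omega) (hsz L hLX) hLε hLX
    have hiL : i * (X / k) ≤ X := by
      calc i * (X / k) ≤ k * (X / k) := Nat.mul_le_mul_right _ hi.le
        _ ≤ X := Nat.mul_div_le X k
    exact hSz (i * (X / k)) hiL S (by rw [hL]; exact hS) hSr (by rw [hL]; exact hSc)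

open Classical in
/-- almost all blocks in the progressions below `2 x` -/
theorem realBlocks (r : ℕ) (hr : 1 ≤ r) (θ t β : ℝ) (hθ0 : 0 < θ) (ht0 : 0 < t) (ht : t ≤ 4 / 5)
    (h2 : 1 < θ * (t * Lam r)) (hβ0 : 0 ≤ β) (hβ : β + max 1 (2 * t) < 2) :
    ∃ c δ : ℝ, 0 < c ∧ 0 < δ ∧ ∀ (l : ℕ) (κ : ℝ), 0 < κ → ∃ B : ℕ, ∀ᶠ x : ℝ in atTop,
      ∀ q a X k : ℕ, 0 < q → Nat.Coprime a q → ((a + q * X : ℕ) : ℝ) ≤ 2 * x → x ^ θ ≤ X →
      1 ≤ k → (k : ℝ) ≤ (X : ℝ) ^ β →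
      (((range k).filter (fun i => ¬ Ric (c * (((q : ℝ) / q.totient) * (((X / k : ℕ) : ℝ) / Real.log x))) l κ
        (Real.log x ^ B) (RG r (x ^ (θ * t / 4)) q (a + q * (i * (X / k))) (X / k)))).card : ℝ) ≤
        k * (X : ℝ) ^ (-δ) := by
  have hL1 := Lam_posG r hr
  have hL0 : 0 < Lam r := by linarith
  have htL : 0 < t * Lam r := by positivity
  obtain ⟨g, hgd⟩ : ∃ g : ℝ, g = (1 / θ + t * Lam r) / 2 := ⟨_, rfl⟩
  have h1 : 1 / θ < t * Lam r := by
    rw [div_lt_iff₀ hθ0]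
    linarith
  have hg1 : 1 / θ < g := by rw [hgd]; linarith
  have hg2 : g < t * Lam r := by rw [hgd]; linarith
  have hg0 : 0 < g := lt_trans (by positivity) hg1
  have hgθ : 1 < θ * g := by
    rw [div_lt_iff₀ hθ0] at hg1
    linarith
  obtain ⟨c, δ, hc, hδ, hmain⟩ := blocksG r hr g t β hg0 ht0 ht hg2 hβ0 hβ
  refine ⟨c / 2, δ, by positivity, hδ, fun l κ hκ => ?_⟩
  obtain ⟨B, N₀, hB⟩ := hmain l (κ * (c / 2) * θ) (θ * t / 8) (by positivity) (by positivity)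
  refine ⟨2 * B, ?_⟩
  have v1 : ∀ᶠ x : ℝ in atTop, (4 : ℝ) ≤ x ^ (θ * g - 1) :=
    (tendsto_rpow_atTop (by linarith)).eventually_ge_atTop _
  have v2 : ∀ᶠ x : ℝ in atTop, ((N₀ + 3 : ℕ) : ℝ) ≤ x ^ θ :=
    (tendsto_rpow_atTop hθ0).eventually_ge_atTop _
  have v3 : ∀ᶠ x : ℝ in atTop, (3 : ℝ) ≤ Real.log x := Real.tendsto_log_atTop.eventually_ge_atTop _
  filter_upwards [v1, v2, v3, eventually_ge_atTop 3] with x w1 w2 w3 w4 q a X k hq hqa hsz hX hk1 hkβ
  have hx0 : (0 : ℝ) < x := by linarith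
  have hX0 : N₀ + 3 ≤ X := by exact_mod_cast w2.trans hX
  have hX3 : (3 : ℝ) ≤ X := by exact_mod_cast (by omega : 3 ≤ X)
  have hX0' : (0 : ℝ) < X := by linarith
  have hsize : 2 * ((a + q * X : ℕ) : ℝ) ≤ (X : ℝ) ^ g := by
    calc 2 * ((a + q * X : ℕ) : ℝ) ≤ 4 * x := by linarith
      _ ≤ x ^ (θ * g - 1) * x := mul_le_mul_of_nonneg_right w1 hx0.le
      _ = x ^ (θ * g) := by
          nth_rewrite 2 [← Real.rpow_one x]
          rw [← Real.rpow_add hx0]
          congr 1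
          ring
      _ = (x ^ θ) ^ g := Real.rpow_mul hx0.le _ _
      _ ≤ (X : ℝ) ^ g := Real.rpow_le_rpow (by positivity) hX hg0.le
  have hXx : (X : ℝ) ≤ x ^ 2 := by
    have h1 : X ≤ a + q * X := by
      have h3 : X ≤ q * X := Nat.le_mul_of_pos_left _ hq
      omega
    have h3 : (X : ℝ) ≤ ((a + q * X : ℕ) : ℝ) := by exact_mod_cast h1
    nlinarith
  have hlX : 0 < Real.log X := Real.log_pos (by linarith)
  have hlx : 0 < Real.log x := by linarith
  have hlog2 : Real.log X ≤ 2 * Real.log x := by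
    calc Real.log X ≤ Real.log (x ^ 2) := Real.log_le_log hX0' hXx
      _ = 2 * Real.log x := by
          rw [Real.log_pow]
          push_cast
          ring
  have hlog1 : θ * Real.log x ≤ Real.log X := by
    rw [← Real.log_rpow hx0]
    exact Real.log_le_log (by positivity) hX
  obtain ⟨hA, hS⟩ := hB q a X k hq hqa (by omega) hsize hk1 hkβ
  refine le_trans ?_ hA
  have hQ0 : (0 : ℝ) ≤ (q : ℝ) / q.totient := by positivity
  obtain ⟨L, hL⟩ : ∃ L : ℕ, L = X / k := ⟨_, rfl⟩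
  simp only [← hL] at hS ⊢
  have hcard : ((range k).filter (fun i => ¬ Ric (c / 2 * (((q : ℝ) / q.totient) * ((L : ℝ) / Real.log x))) l κ
      (Real.log x ^ (2 * B)) (RG r (x ^ (θ * t / 4)) q (a + q * (i * L)) L))) ⊆
      (range k).filter (fun i => ((RG r ((X : ℝ) ^ (t / 4)) q (a + q * (i * L)) L).card : ℝ) <
        c * (((q : ℝ) / q.totient) * ((L : ℝ) / Real.log X))) := by
    intro i hi
    rw [mem_filter] at hi ⊢
    refine ⟨hi.1, ?_⟩
    by_contra hcon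
    push Not at hcon
    apply hi.2
    have hsub : RG r ((X : ℝ) ^ (t / 4)) q (a + q * (i * L)) L ⊆ RG r (x ^ (θ * t / 4)) q (a + q * (i * L)) L := by
      intro j hj
      unfold RG at hj ⊢
      rw [mem_filter] at hj ⊢
      refine ⟨hj.1, hj.2.1, fun ℓ hℓ hd => le_trans ?_ (hj.2.2 ℓ hℓ hd)⟩
      rw [show θ * t / 4 = θ * (t / 4) by ring, Real.rpow_mul hx0.le]
      exact Real.rpow_le_rpow (by positivity) hX (by positivity)
    have hcl : c / 2 * (((q : ℝ) / q.totient) * ((L : ℝ) / Real.log x)) ≤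
        ((RG r (x ^ (θ * t / 4)) q (a + q * (i * L)) L).card : ℝ) := by
      have h3 : ((RG r ((X : ℝ) ^ (t / 4)) q (a + q * (i * L)) L).card : ℝ) ≤
          ((RG r (x ^ (θ * t / 4)) q (a + q * (i * L)) L).card : ℝ) := by exact_mod_cast card_le_card hsub
      refine le_trans ?_ (hcon.trans h3)
      have h4 : (L : ℝ) / Real.log x ≤ 2 * (L / Real.log X) := by
        rw [mul_div_assoc', div_le_div_iff₀ hlx hlX]
        have h5 : (0 : ℝ) ≤ L := Nat.cast_nonneg _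
        nlinarith
      calc c / 2 * (((q : ℝ) / q.totient) * ((L : ℝ) / Real.log x)) ≤
          c / 2 * (((q : ℝ) / q.totient) * (2 * (L / Real.log X))) := by gcongr
        _ = _ := by ring
    refine ⟨hcl, fun S hSsub hSc => ?_⟩
    obtain ⟨y, d, hd1, hd2, hyd⟩ := hS i (mem_range.1 hi.1) S
      (fun j hj => by
        have h3 := hSsub hj
        unfold RG at h3
        exact (mem_filter.1 h3).1)
      (fun j hj ℓ hℓ hd => by
        have h3 := hSsub hj
        unfold RG at h3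
        refine le_trans ?_ ((mem_filter.1 h3).2.2 ℓ hℓ hd)
        calc (X : ℝ) ^ (θ * t / 8) ≤ (x ^ 2) ^ (θ * t / 8) := Real.rpow_le_rpow hX0'.le hXx (by positivity)
          _ = x ^ (θ * t / 4) := by
              rw [← Real.rpow_natCast, ← Real.rpow_mul hx0.le]
              congr 1
              push_cast
              ring)
      (by
        refine le_trans ?_ hSc
        refine le_trans ?_ (mul_le_mul_of_nonneg_left hcl hκ.le)
        have h4 : θ * ((L : ℝ) / Real.log X) ≤ L / Real.log x := by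
          rw [mul_div_assoc', div_le_div_iff₀ hlX hlx]
          have h5 : (0 : ℝ) ≤ L := Nat.cast_nonneg _
          nlinarith
        calc κ * (c / 2) * θ * (((q : ℝ) / q.totient) * ((L : ℝ) / Real.log X)) =
            κ * (c / 2 * (((q : ℝ) / q.totient) * (θ * (L / Real.log X)))) := by ring
          _ ≤ κ * (c / 2 * (((q : ℝ) / q.totient) * (L / Real.log x))) := by gcongr)
    refine ⟨y, d, hd1, hd2.trans ?_, hyd⟩
    rw [pow_mul]
    apply pow_le_pow_left₀ hlX.le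
    nlinarith
  exact_mod_cast card_le_card hcard

end Pool.Agent.Zk38.AP
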