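import Pool.Agent.Zk38.AP.SIG

set_option autoImplicit false

/-! Products of few primes in almost all short subintervals of the arithmetic progressions below `2 x`. -/

namespace Pool.Agent.Zk38.AP

open Finset Filter
open Pool.Agent.K3h19.RV (Lam)

/-- `M` has at least `m` elements and its subsets of proportion at least `κ` contain narrow progressions -/
def Ric (m : ℝ) (l : ℕ) (κ D : ℝ) (M : Finset ℕ) : Prop :=
  m ≤ M.card ∧ ∀ S ⊆ M, κ * M.card ≤ S.card → ∃ y d : ℕ, 1 ≤ d ∧ (d : ℝ) ≤ D ∧ ∀ i < l, y + i * d ∈ S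

open Classical in
/-- almost all short intervals in the progressions below `2 x` -/
theorem realSIG (r : ℕ) (hr : 1 ≤ r) (θ t ε : ℝ) (hθ0 : 0 < θ) (ht0 : 0 < t) (ht : t ≤ 4 / 5)
    (h2 : 1 < θ * (t * Lam r)) (hε : 0 < ε) :
    ∃ c : ℝ, 0 < c ∧ ∀ (l : ℕ) (κ : ℝ), 0 < κ → ∃ B : ℕ, ∀ᶠ x : ℝ in atTop,
      ∀ q a X H : ℕ, 0 < q → Nat.Coprime a q → ((a + q * (X + H) : ℕ) : ℝ) ≤ 2 * x → x ^ θ ≤ X →
      (X : ℝ) ^ ε ≤ H → H ≤ X →
      (((Icc 1 X).filter (fun N => ¬ Ric (c * (((q : ℝ) / q.totient) * (H / Real.log x))) l κ (Real.log x ^ B)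
        (RG r (x ^ (θ * t / 4)) q (a + q * N) H))).card : ℝ) ≤
        (X : ℝ) ^ (max 1 (2 * t) + ε) / H + (X : ℝ) ^ (1 - t / 4 + ε) := by
  have hL1 := Lam_posG r hr
  have hL0 : 0 < Lam r := by linarith
  have htL : 0 < t * Lam r := by positivity
  obtain ⟨g, hgd⟩ : ∃ g : ℝ, g = (1 / θ + t * Lam r) / 2 := ⟨_, rfl⟩
  have h1 : 1 / θ < t * Lam r := by
    rw [div_lt_iff₀ hθ0]
    linarith
  have hg1 : 1 / θ < g := by rw [hgd]; linarith
  have hg2 : g < t * Lam r := by rw [hgd]; linarith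
  have hg0 : 0 < g := lt_trans (by positivity) hg1
  have hgθ : 1 < θ * g := by
    rw [div_lt_iff₀ hθ0] at hg1
    linarith
  obtain ⟨c, hc, hmain⟩ := both_SIG r hr g t ε hg0 ht0 ht hg2 hε
  refine ⟨c / 2, by positivity, fun l κ hκ => ?_⟩
  obtain ⟨B, N₀, hB⟩ := hmain l (κ * (c / 2) * θ) (θ * t / 8) (by positivity) (by positivity)
  refine ⟨2 * B, ?_⟩
  have v1 : ∀ᶠ x : ℝ in atTop, (2 : ℝ) ≤ x ^ (θ * g - 1) :=
    (tendsto_rpow_atTop (by linarith)).eventually_ge_atTop _
  have v2 : ∀ᶠ x : ℝ in atTop, ((N₀ + 3 : ℕ) : ℝ) ≤ x ^ θ :=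
    (tendsto_rpow_atTop hθ0).eventually_ge_atTop _
  have v3 : ∀ᶠ x : ℝ in atTop, (3 : ℝ) ≤ Real.log x := Real.tendsto_log_atTop.eventually_ge_atTop _
  filter_upwards [v1, v2, v3, eventually_ge_atTop 3] with x w1 w2 w3 w4 q a X H hq hqa hsz hX hXε hHX
  have hx0 : (0 : ℝ) < x := by linarith
  have hX0 : N₀ + 3 ≤ X := by exact_mod_cast w2.trans hX
  have hX3 : (3 : ℝ) ≤ X := by exact_mod_cast (by omega : 3 ≤ X)
  have hX0' : (0 : ℝ) < X := by linarith
  have hH0 : (0 : ℝ) < H := lt_of_lt_of_le (by positivity) hXε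
  have hsize : ((a + q * (X + H) : ℕ) : ℝ) ≤ (X : ℝ) ^ g := by
    calc ((a + q * (X + H) : ℕ) : ℝ) ≤ 2 * x := hsz
      _ ≤ x ^ (θ * g - 1) * x := mul_le_mul_of_nonneg_right w1 hx0.le
      _ = x ^ (θ * g) := by
          nth_rewrite 2 [← Real.rpow_one x]
          rw [← Real.rpow_add hx0]
          congr 1
          ring
      _ = (x ^ θ) ^ g := Real.rpow_mul hx0.le _ _
      _ ≤ (X : ℝ) ^ g := Real.rpow_le_rpow (by positivity) hX hg0.le
  have hXx : (X : ℝ) ≤ x ^ 2 := by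
    have h1 : X ≤ a + q * (X + H) := by
      have h3 : X + H ≤ q * (X + H) := Nat.le_mul_of_pos_left _ hq
      omega
    have h3 : (X : ℝ) ≤ ((a + q * (X + H) : ℕ) : ℝ) := by exact_mod_cast h1
    nlinarith
  have hlX : 0 < Real.log X := Real.log_pos (by linarith)
  have hlx : 0 < Real.log x := by linarith
  have hlog2 : Real.log X ≤ 2 * Real.log x := by
    calc Real.log X ≤ Real.log (x ^ 2) := Real.log_le_log hX0' hXx
      _ = 2 * Real.log x := by
          rw [Real.log_pow]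
          push_cast
          ring
  have hlog1 : θ * Real.log x ≤ Real.log X := by
    rw [← Real.log_rpow hx0]
    exact Real.log_le_log (by positivity) hX
  obtain ⟨hA, hS⟩ := hB q a X H hq hqa (by omega) hsize hXε hHX
  refine le_trans ?_ hA
  have hQ0 : (0 : ℝ) ≤ (q : ℝ) / q.totient := by positivity
  have hcard : ((Icc 1 X).filter (fun N => ¬ Ric (c / 2 * (((q : ℝ) / q.totient) * (H / Real.log x))) l κ
      (Real.log x ^ (2 * B)) (RG r (x ^ (θ * t / 4)) q (a + q * N) H))) ⊆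
      (Icc 1 X).filter (fun N => ((RG r ((X : ℝ) ^ (t / 4)) q (a + q * N) H).card : ℝ) <
        c * (((q : ℝ) / q.totient) * (H / Real.log X))) := by
    intro N hN
    rw [mem_filter] at hN ⊢
    refine ⟨hN.1, ?_⟩
    by_contra hcon
    push Not at hcon
    apply hN.2
    have hsub : RG r ((X : ℝ) ^ (t / 4)) q (a + q * N) H ⊆ RG r (x ^ (θ * t / 4)) q (a + q * N) H := by
      intro k hk
      unfold RG at hk ⊢
      rw [mem_filter] at hk ⊢
      refine ⟨hk.1, hk.2.1, fun ℓ hℓ hd => le_trans ?_ (hk.2.2 ℓ hℓ hd)⟩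
      rw [show θ * t / 4 = θ * (t / 4) by ring, Real.rpow_mul hx0.le]
      exact Real.rpow_le_rpow (by positivity) hX (by positivity)
    have hcl : c / 2 * (((q : ℝ) / q.totient) * (H / Real.log x)) ≤
        ((RG r (x ^ (θ * t / 4)) q (a + q * N) H).card : ℝ) := by
      have h3 : ((RG r ((X : ℝ) ^ (t / 4)) q (a + q * N) H).card : ℝ) ≤
          ((RG r (x ^ (θ * t / 4)) q (a + q * N) H).card : ℝ) := by exact_mod_cast card_le_card hsub
      refine le_trans ?_ (hcon.trans h3)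
      have h4 : (H : ℝ) / Real.log x ≤ 2 * (H / Real.log X) := by
        rw [mul_div_assoc', div_le_div_iff₀ hlx hlX]
        nlinarith
      calc c / 2 * (((q : ℝ) / q.totient) * (H / Real.log x)) ≤
          c / 2 * (((q : ℝ) / q.totient) * (2 * (H / Real.log X))) := by gcongr
        _ = _ := by ring
    refine ⟨hcl, fun S hSsub hSc => ?_⟩
    obtain ⟨y, d, hd1, hd2, hyd⟩ := hS N (mem_Icc.1 hN.1).2 S
      (fun k hk => by
        have h3 := hSsub hk
        unfold RG at h3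
        exact (mem_filter.1 h3).1)
      (fun k hk ℓ hℓ hd => by
        have h3 := hSsub hk
        unfold RG at h3
        refine le_trans ?_ ((mem_filter.1 h3).2.2 ℓ hℓ hd)
        calc (X : ℝ) ^ (θ * t / 8) ≤ (x ^ 2) ^ (θ * t / 8) := Real.rpow_le_rpow hX0'.le hXx (by positivity)
          _ = x ^ (θ * t / 4) := by
              rw [← Real.rpow_natCast, ← Real.rpow_mul hx0.le]
              congr 1
              push_cast
              ring)
      (by
        refine le_trans ?_ hSc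
        refine le_trans ?_ (mul_le_mul_of_nonneg_left hcl hκ.le)
        have h4 : θ * (H / Real.log X) ≤ H / Real.log x := by
          rw [mul_div_assoc', div_le_div_iff₀ hlX hlx]
          nlinarith
        calc κ * (c / 2) * θ * (((q : ℝ) / q.totient) * (H / Real.log X)) =
            κ * (c / 2 * (((q : ℝ) / q.totient) * (θ * (H / Real.log X)))) := by ring
          _ ≤ κ * (c / 2 * (((q : ℝ) / q.totient) * (H / Real.log x))) := by gcongr)
    refine ⟨y, d, hd1, hd2.trans ?_, hyd⟩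
    rw [pow_mul]
    apply pow_le_pow_left₀ hlX.le
    nlinarith
  exact_mod_cast card_le_card hcard

end Pool.Agent.Zk38.AP
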