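import Pool.Agent.Zk38.AP.GenSz
import Pool.Agent.Zk38.AP.Slots

set_option autoImplicit false
set_option linter.unusedSectionVars false

/-! The polynomials `q X + a` and the products of their shifts are systems, uniformly in `q` and `a`. -/

namespace Pool.Agent.Zk38.AP

open Finset Filter Polynomial
open Pool.Agent.Y677.RSZ (rt Sys rhoT per_mod ev_log V)
open Pool.Agent.Zk48.AP (rho cnt)
open Pool.Agent.Zk41.PY (fn)

lemma PG_eval (q a : ℕ) (x : ℤ) : (PG q a).eval x = q * x + a := fn_PG q a x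

lemma PG_nat (q a x : ℕ) : (PG q a).eval (x : ℤ) = ((a + q * x : ℕ) : ℤ) := by
  rw [PG_eval]
  push_cast
  ring

lemma PG_abs (q a x : ℕ) : ((PG q a).eval (x : ℤ)).natAbs = a + q * x := by
  rw [PG_nat, Int.natAbs_natCast]

lemma PG_rt (q a ℓ : ℕ) (h : Nat.Coprime a q) (hℓ : ℓ.Prime) : rt (fun n => (PG q a).eval n) ℓ = rho q ℓ :=
  rt_PG q a ℓ h hℓ

lemma rho_le (q ℓ : ℕ) : rho q ℓ ≤ 1 := by
  unfold rho
  split_ifs <;> omega

/-- a prime divides at most one class -/
lemma one_root (q a p : ℕ) (hp : p.Prime) (h : Nat.Coprime a q) (u v : ℤ) (h1 : (p : ℤ) ∣ q * u + a)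
    (h2 : (p : ℤ) ∣ q * v + a) : (p : ℤ) ∣ u - v := by
  have h3 : (p : ℤ) ∣ q * (u - v) := by
    have h4 := dvd_sub h1 h2
    rwa [show (q : ℤ) * u + a - (q * v + a) = q * (u - v) by ring] at h4
  rcases (Nat.prime_iff_prime_int.1 hp).dvd_or_dvd h3 with h4 | h4
  · exfalso
    have h5 : (p : ℤ) ∣ (a : ℤ) := (Int.dvd_add_right (h4.mul_right u)).1 h1
    have h6 := Nat.dvd_gcd (Int.natCast_dvd_natCast.1 h5) (Int.natCast_dvd_natCast.1 h4)
    rw [h.gcd_eq_one] at h6
    exact hp.one_lt.ne' (Nat.dvd_one.1 h6)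
  · exact h4

lemma PG_per (q a p : ℕ) (n : ℤ) : (p : ℤ) ∣ (PG q a).eval (n + p) - (PG q a).eval n := by
  rw [PG_eval, PG_eval]
  exact ⟨q, by ring⟩

lemma PG_sys (q a : ℕ) (h : Nat.Coprime a q) : Sys 1 (fun n => (PG q a).eval n) where
  per p _ n := PG_per q a p n
  root p hp := by
    rw [PG_rt q a p h hp]
    have := rho_le q p
    have := hp.two_le
    omega
  coll := by
    refine ⟨fun h => h, fun d hd => ⟨hd, by rw [pow_one], fun p hp n h1 h2 => ?_⟩⟩
    simp only [PG_eval] at h1 h2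
    have h3 := one_root q a p hp h (n + d) n h2 h1
    rw [show n + (d : ℤ) - n = d by ring] at h3
    exact Int.natCast_dvd_natCast.1 h3

/-- the products of the shifts -/
theorem PPG_sys (q a W b NT : ℕ) {n : ℕ} (hn : 1 ≤ n) (t : Fin n → ℕ) (hNT : ∀ i, t i ≤ NT) (h : Nat.Coprime a q)
    (hWp : ∀ p : ℕ, p.Prime → p ≤ n + 1 → p ∣ W)
    (hb : ∀ p : ℕ, p.Prime → p ∣ W → ¬ (p : ℤ) ∣ (PG q a).eval (b : ℤ)) :
    Sys (2 * n ^ 2 + W * NT + n + 3) (fun x => (PP (PG q a) W t).eval x) := by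
  classical
  have hdv : ∀ (p : ℕ), p.Prime → ∀ x : ℤ, (p : ℤ) ∣ (PP (PG q a) W t).eval x ↔
      ∃ i, (p : ℤ) ∣ q * (x + ((W * t i : ℕ) : ℤ)) + a := by
    intro p hp x
    rw [PP_eval]
    have hp' : Prime (p : ℤ) := Nat.prime_iff_prime_int.1 hp
    rw [hp'.dvd_finsetProd_iff]
    simp only [mem_univ, true_and, PG_eval]
  have hrt : ∀ p : ℕ, p.Prime → rt (fun x => (PP (PG q a) W t).eval x) p ≤ n := by
    intro p hp
    unfold rt
    have h1 : (range p).filter (fun r : ℕ => (p : ℤ) ∣ (fun x => (PP (PG q a) W t).eval x) (r : ℤ)) ⊆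
        (univ : Finset (Fin n)).biUnion (fun i => (range p).filter (fun r : ℕ =>
          (p : ℤ) ∣ q * ((r : ℤ) + ((W * t i : ℕ) : ℤ)) + a)) := by
      intro r hr
      rw [mem_filter] at hr
      obtain ⟨i, hi⟩ := (hdv p hp r).1 hr.2
      rw [mem_biUnion]
      exact ⟨i, mem_univ i, mem_filter.2 ⟨hr.1, hi⟩⟩
    have h2 : ∀ i : Fin n, ((range p).filter (fun r : ℕ =>
          (p : ℤ) ∣ q * ((r : ℤ) + ((W * t i : ℕ) : ℤ)) + a)).card ≤ 1 := by
      intro i
      rw [card_le_one]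
      intro r hr r' hr'
      rw [mem_filter, mem_range] at hr hr'
      have h3 := one_root q a p hp h _ _ hr.2 hr'.2
      rw [show (r : ℤ) + ((W * t i : ℕ) : ℤ) - ((r' : ℤ) + ((W * t i : ℕ) : ℤ)) = (r : ℤ) - r' by ring] at h3
      have h4 := Int.eq_zero_of_abs_lt_dvd h3 (by
        rw [abs_lt]
        omega)
      omega
    calc _ ≤ _ := card_le_card h1
      _ ≤ _ := card_biUnion_le
      _ ≤ ∑ _i : Fin n, 1 := sum_le_sum fun i _ => h2 i
      _ = n := by simp
  have hper : ∀ p : ℕ, p.Prime → ∀ m : ℤ,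
      (p : ℤ) ∣ (fun x => (PP (PG q a) W t).eval x) (m + p) - (fun x => (PP (PG q a) W t).eval x) m := by
    intro p _ m
    have h1 := sub_dvd_eval_sub (m + p) m (PP (PG q a) W t)
    rw [add_sub_cancel_left] at h1
    exact h1
  refine ⟨hper, fun p hp => ⟨(hrt p hp).trans (by omega), ?_⟩, ?_⟩
  · by_cases hpW : p ∣ W
    · -- `b` is not a root
      by_contra hcon
      push Not at hcon
      unfold rt at hcon
      have h1 : (range p).filter (fun r : ℕ => (p : ℤ) ∣ (fun x => (PP (PG q a) W t).eval x) (r : ℤ)) = range p := by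
        apply eq_of_subset_of_card_le (filter_subset _ _)
        rw [card_range]
        exact hcon
      have h2 : b % p ∈ range p := mem_range.2 (Nat.mod_lt _ hp.pos)
      rw [← h1, mem_filter] at h2
      obtain ⟨i, hi⟩ := (hdv p hp _).1 h2.2
      apply hb p hp hpW
      rw [PG_eval]
      have h3 : (p : ℤ) ∣ ((b % p : ℕ) : ℤ) + ((W * t i : ℕ) : ℤ) - b := by
        have h4 : ((b : ℕ) : ℤ) = ((p * (b / p) + b % p : ℕ) : ℤ) := by rw [Nat.div_add_mod]
        have h5 : (p : ℤ) ∣ ((W * t i : ℕ) : ℤ) := Int.natCast_dvd_natCast.2 (hpW.mul_right _)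
        rw [h4]
        push_cast at h5 ⊢
        obtain ⟨c, hc⟩ := h5
        exact ⟨c - b / p, by rw [hc]; ring⟩
      have h6 := h3.mul_left (q : ℤ)
      have h7 := dvd_sub hi h6
      rwa [show (q : ℤ) * (((b % p : ℕ) : ℤ) + ((W * t i : ℕ) : ℤ)) + a -
        q * (((b % p : ℕ) : ℤ) + ((W * t i : ℕ) : ℤ) - b) = q * b + a by ring] at h7
    · have h1 : n + 1 < p := by
        by_contra hcon
        exact hpW (hWp p hp (not_lt.1 hcon))
      have := hrt p hp
      omega
  · refine ⟨fun d => ∏ ij : Fin n × Fin n, (d + W * t ij.2 - W * t ij.1), fun d hd => ?_⟩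
    have hWt : ∀ i, W * t i ≤ W * NT := fun i => Nat.mul_le_mul_left _ (hNT i)
    refine ⟨?_, ?_, ?_⟩
    · apply Nat.one_le_iff_ne_zero.2
      rw [Finset.prod_ne_zero_iff]
      intro ij _
      have := hWt ij.1
      omega
    · calc ∏ ij : Fin n × Fin n, (d + W * t ij.2 - W * t ij.1) ≤ ∏ _ij : Fin n × Fin n, d ^ 2 := by
            apply Finset.prod_le_prod'
            intro ij _
            have h1 := hWt ij.2
            have h2 : 2 * d ≤ d ^ 2 := by
              rw [sq]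
              exact Nat.mul_le_mul_right d (by omega)
            omega
        _ = (d ^ 2) ^ (n * n) := by
            rw [prod_const, card_univ, Fintype.card_prod, Fintype.card_fin]
        _ = d ^ (2 * n ^ 2) := by
            rw [← pow_mul]
            congr 1
            ring
        _ ≤ d ^ (2 * n ^ 2 + W * NT + n + 3) := Nat.pow_le_pow_right (by omega) (by omega)
    · intro p hp x h1 h2
      obtain ⟨i, hi⟩ := (hdv p hp _).1 h1
      obtain ⟨j, hj⟩ := (hdv p hp _).1 h2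
      have h3 := one_root q a p hp h _ _ hj hi
      have h4 : (p : ℤ) ∣ ((d + W * t j - W * t i : ℕ) : ℤ) := by
        have h5 := hWt i
        rw [Nat.cast_sub (by omega)]
        refine h3.trans (dvd_of_eq ?_)
        push_cast
        ring
      have h6 : p ∣ d + W * t j - W * t i := Int.natCast_dvd_natCast.1 h4
      exact h6.trans (Finset.dvd_prod_of_mem (fun ij : Fin n × Fin n => d + W * t ij.2 - W * t ij.1) (mem_univ (i, j)))

/-- sizes -/
theorem PPG_size (q a W NT X : ℕ) {n : ℕ} (t : Fin n → ℕ) (hNT : ∀ i, t i ≤ NT) (hq : 0 < q) (x : ℕ) (hx : 1 ≤ x)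
    (hX : x + W * NT ≤ X) :
    (PP (PG q a) W t).eval (x : ℤ) ≠ 0 ∧ |(PP (PG q a) W t).eval (x : ℤ)| ≤ (((a + q * X) ^ n : ℕ) : ℤ) := by
  classical
  have h1 : (PP (PG q a) W t).eval (x : ℤ) = ((∏ i, (a + q * (x + W * t i)) : ℕ) : ℤ) := by
    rw [PP_eval]
    push_cast
    apply prod_congr rfl
    intro i _
    rw [PG_eval]
    push_cast
    ring
  rw [h1]
  constructor
  · intro h0
    have h2 : ∏ i, (a + q * (x + W * t i)) = 0 := by exact_mod_cast h0
    rw [Finset.prod_eq_zero_iff] at h2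
    obtain ⟨i, _, hi⟩ := h2
    have h3 : 0 < q * (x + W * t i) := Nat.mul_pos hq (by omega)
    omega
  · rw [Nat.abs_cast]
    have h2 : ∏ i, (a + q * (x + W * t i)) ≤ (a + q * X) ^ n := by
      calc ∏ i, (a + q * (x + W * t i)) ≤ ∏ _i : Fin n, (a + q * X) := by
            apply Finset.prod_le_prod'
            intro i _
            have h3 : W * t i ≤ W * NT := Nat.mul_le_mul_left _ (hNT i)
            have h4 : q * (x + W * t i) ≤ q * X := Nat.mul_le_mul_left _ (by omega)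
            omega
        _ = _ := by rw [prod_const, card_univ, Fintype.card_fin]
    exact_mod_cast h2

/-- squares -/
theorem PG_sq (q a : ℕ) (h : Nat.Coprime a q) (p : ℕ) (hp : p.Prime) (N H : ℕ) :
    ((((Icc 1 H).filter (fun j : ℕ => ((p ^ 2 : ℕ) : ℤ) ∣ (PG q a).eval ((N + j : ℕ) : ℤ))).card : ℕ) : ℝ) ≤
      ((1 : ℕ) : ℝ) * (H * (1 / (p : ℝ) ^ 2) + 1) := by
  classical
  have e : (Icc 1 H).filter (fun j : ℕ => ((p ^ 2 : ℕ) : ℤ) ∣ (PG q a).eval ((N + j : ℕ) : ℤ)) =
      (Icc 1 H).filter (fun j : ℕ => p ^ 2 ∣ q * (N + j) + a) := by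
    apply filter_congr
    intro j _
    rw [PG_nat, Int.natCast_dvd_natCast, add_comm]
  rw [e, Nat.cast_one, one_mul]
  by_cases hpq : p ∣ q
  · have h7 : (Icc 1 H).filter (fun j : ℕ => p ^ 2 ∣ q * (N + j) + a) = ∅ := by
      rw [filter_eq_empty_iff]
      intro j _ hj
      have h8 : p ∣ q * (N + j) + a := (dvd_pow_self p two_ne_zero).trans hj
      have h9 : p ∣ a := (Nat.dvd_add_right (hpq.mul_right _)).1 h8
      have h10 := Nat.dvd_gcd h9 hpq
      rw [h.gcd_eq_one] at h10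
      exact hp.one_lt.ne' (Nat.dvd_one.1 h10)
    rw [h7]
    simp only [card_empty, Nat.cast_zero]
    positivity
  · have h7 := cnt (p ^ 2) q a N H (pow_pos hp.pos 2)
      (Nat.Coprime.pow_right 2 (((Nat.Prime.coprime_iff_not_dvd hp).2 hpq).symm))
    have h8 := (abs_le.1 h7).2
    push_cast at h8
    rw [mul_one_div]
    linarith

end Pool.Agent.Zk38.AP
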