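import Pool.Agent.Zk38.AP.UCore
import Pool.Agent.Zk38.AP.UPol
import Pool.Agent.Zk38.AP.Many

set_option autoImplicit false
set_option linter.unusedSectionVars false

/-! The theorem of Maynard and Tao for the terms with few prime factors of all arithmetic progressions, uniformly. -/

namespace Pool.Agent.Zk38.AP

open Finset Polynomial Filter
open Pool.Agent.Y677.RSZ (rt Sys rhoT per_mod ev_log V eng_all)
open Pool.Agent.TH423.SH (PS)
open Pool.Agent.W23.DC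
open Pool.Agent.Y882
open Pool.Agent.Y882.PX
open Pool.Agent.Y882.KW
open Pool.Agent.K3h19.RV (Lam)
open Pool.Agent.Zk41.P4 (richertD)
open Pool.Agent.R498.MT
open Pool.Agent.Zk48.AP (rho mer)

lemma PG_mer (ε₁ υ η g : ℝ) (hε : 0 < ε₁) (hυ : υ ≤ 1) (hη : 0 < η) (hg : 0 ≤ g) : ∃ N₀ : ℕ, ∀ M : ℕ, N₀ ≤ M →
    ∀ q a : ℕ, 0 < q → Nat.Coprime a q → (q : ℝ) ≤ (M : ℝ) ^ g →
      Mer (pr M ε₁ υ) (tt M) (fun p => (rt (fun n => (PG q a).eval n) p : ℝ) / p) ε₁ υ η := by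
  obtain ⟨N₀, h⟩ := mer ε₁ υ η g hε hυ hη hg
  refine ⟨N₀, fun M hM q a hq hqa hqM x y hx hxy hy => ?_⟩
  have h1 := h M hM q hq hqM x y hx hxy hy
  have e : ∑ p ∈ (pr M ε₁ υ).filter (fun p => x ≤ tt M p ∧ tt M p < y),
      (rt (fun n => (PG q a).eval n) p : ℝ) / p =
      ∑ p ∈ (pr M ε₁ υ).filter (fun p => x ≤ tt M p ∧ tt M p < y), (rho q p : ℝ) / p := by
    apply sum_congr rfl
    intro p hp
    have hpp : p.Prime := by
      have h2 := (mem_filter.1 hp).1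
      unfold pr at h2
      exact (mem_filter.1 h2).2.1
    rw [PG_rt q a p hqa hpp]
  rw [e]
  exact h1

set_option maxHeartbeats 1600000 in
/-- **Clusters of terms with few prime factors in narrow progressions**, uniformly in the progression -/
theorem clustersU (rr : ℕ) (hrr : 1 ≤ rr) (g : ℝ) (hg0 : 0 < g) (hgL' : g < Lam rr) :
    ∀ m : ℕ, ∃ K₀ : ℕ, ∀ HH : Finset ℕ, K₀ ≤ HH.card → ∀ l : ℕ, 2 ≤ l → ∃ B H₀ : ℕ,
      ∀ q a H : ℕ, 0 < q → Nat.Coprime a q → H₀ ≤ H → ((a + q * H : ℕ) : ℝ) ≤ (H : ℝ) ^ g →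
      ∃ T ⊆ HH, T.card = m ∧ ∃ x d : ℕ, 1 ≤ x ∧ 1 ≤ d ∧ (d : ℝ) ≤ Real.log H ^ B ∧ ∀ j < l, ∀ h ∈ T,
        x + j * d + h ≤ H ∧ (a + q * (x + j * d + h)).primeFactorsList.length ≤ rr ∧
        ∀ p : ℕ, p.Prime → p ∣ a + q * (x + j * d + h) → (H : ℝ) ^ (1 / 8 : ℝ) ≤ p := by
  classical
  have hL1 := Lam_posG rr hrr
  have hL0 : 0 < Lam rr := by linarith
  have hgL : g / Lam rr < 1 := by rwa [div_lt_one hL0]
  have hgL0 : 0 < g / Lam rr := by positivity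
  obtain ⟨τ, hτd⟩ : ∃ τ : ℝ, τ = (g / Lam rr + 1) / 2 := ⟨_, rfl⟩
  have hτ0 : 0 < τ := by rw [hτd]; positivity
  have hτ1 : τ < 1 := by rw [hτd]; linarith
  have hτ2 : 1 / 2 ≤ τ := by rw [hτd]; linarith
  have hτL : g < τ * Lam rr := by
    have h1 : g / Lam rr < τ := by rw [hτd]; linarith
    rwa [div_lt_iff₀ hL0] at h1
  obtain ⟨υ, lam, S, hτυ, hυτ, hlam, hgS, hrS, hint⟩ := richertD rr hrr g τ hg0 hτ0 hτL
  have hυ0 : 0 < υ := by linarith
  obtain ⟨θ', hθ'd⟩ : ∃ θ' : ℝ, θ' = (2 * τ + 1) / 3 := ⟨_, rfl⟩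
  obtain ⟨θ, hθd⟩ : ∃ θ : ℝ, θ = (τ + 2) / 3 := ⟨_, rfl⟩
  have hτθ' : τ < θ' := by rw [hθ'd]; linarith
  have hθ'θ : θ' < θ := by rw [hθ'd, hθd]; linarith
  have hθ1 : θ < 1 := by rw [hθd]; linarith
  obtain ⟨R, hRd⟩ : ∃ R : ℝ, R = min (τ / 8) ((θ' - τ) / 4) := ⟨_, rfl⟩
  have hR0 : 0 < R := by rw [hRd]; exact lt_min (by linarith) (by linarith)
  have hR1 : R ≤ τ / 8 := by rw [hRd]; exact min_le_left _ _
  have hR2 : R ≤ (θ' - τ) / 4 := by rw [hRd]; exact min_le_right _ _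
  obtain ⟨D, hD⟩ : ∃ D : ℕ, g + 3 ≤ D := exists_nat_ge _
  intro m
  obtain ⟨k, W, hW0, hWsq, hWp, hgW, ε₁, η, c, hε, hεζ, hη, hc, hcore⟩ :=
    coreU 1 D m τ (τ / 4) υ lam
      (lam / υ) θ' R (by linarith) (by linarith)
      (by linarith) (by linarith) hτυ
      hυτ hlam.le (by positivity)
      (by rw [div_mul_cancel₀ _ hυ0.ne']) hint hR0 (by linarith)
      (by linarith)
  obtain ⟨N1, hM1⟩ := PG_mer ε₁ υ η g hε (by linarith) hη hg0.le
  obtain ⟨N2, hM2⟩ := PG_mer ε₁ υ (1 / 40) g hε (by linarith) (by norm_num) hg0.le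
  have hW2 : 2 ≤ W := by
    have h1 : 2 ∣ W := hWp 2 Nat.prime_two (by
      have : 1 ≤ 1 * 2 ^ k := by
        rw [one_mul]
        exact Nat.one_le_two_pow
      omega)
    exact Nat.le_of_dvd hW0 h1
  refine ⟨W * 2 ^ k, ?_⟩
  intro HH hHH l hl
  obtain ⟨r, t, hrW, ht, hmem⟩ := shifts W (2 ^ k) hW0 HH hHH
  obtain ⟨Y₀, hcore⟩ := hcore t ht
  obtain ⟨NT, hNT⟩ : ∃ NT : ℕ, ∀ i, t i ≤ NT :=
    ⟨univ.sup t, fun i => Finset.le_sup (f := t) (mem_univ i)⟩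
  obtain ⟨E, hE⟩ : ∃ E : ℕ, g * 2 ^ k ≤ θ' * E := by
    obtain ⟨E, hE⟩ := exists_nat_ge (g * 2 ^ k / θ')
    refine ⟨E, ?_⟩
    rw [div_le_iff₀ (by linarith)] at hE
    linarith
  set κ : ℝ := c / (2 * 2 ^ 2 ^ k) / W with hκ
  have hW0r : (0 : ℝ) < W := by exact_mod_cast hW0
  have hκ0 : 0 < κ := by positivity
  obtain ⟨g', hg'⟩ : ∃ g' : ℕ, g' = 2 * (2 ^ k) ^ 2 + W * NT + 2 ^ k + 3 := ⟨_, rfl⟩
  obtain ⟨B, H₀, hB⟩ := eng_all l (g' + E) (ε₁ / 2) κ hl (by positivity) hκ0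
  have hnums := nums2 W r 0 0 H₀ 0 Y₀ NT (2 * (1 * 2 ^ k) + 1) 0
    (8 * (2 ^ k * (1 : ℕ) * W) / c) (4 * (2 ^ k * (1 : ℕ)) / c) (τ / 4) υ θ θ' 1 hW2 hrW (by linarith)
    (by linarith) (by linarith) (by linarith) hθ1.le (by linarith)
  have hT := tendsto_natCast_atTop_atTop (R := ℝ)
  have v1 : ∀ᶠ N : ℕ in atTop, (1 : ℝ) + ((W * (NT + 4) : ℕ) : ℝ) ≤ (N : ℝ) ^ (1 - θ) :=
    ((tendsto_rpow_atTop (by linarith)).comp hT).eventually_ge_atTop _
  obtain ⟨H₁, hH₁⟩ := eventually_atTop.1 (hnums.and (v1.and (eventually_ge_atTop (N1 + N2 + 3))))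
  refine ⟨B, H₁, fun q a₀ N hq hqa hN hsize => ?_⟩
  obtain ⟨⟨n1, n2, -, -, n5, -, -, -, n9, n10, L, l1, l2, l3, l4, l5⟩, w1, w2⟩ := hH₁ N hN
  have hNr : (3 : ℝ) ≤ N := by exact_mod_cast n1
  have hN0 : (0 : ℝ) < N := by linarith
  have hN1 : (1 : ℝ) ≤ N := by linarith
  -- the sizes
  have hqN : q ≤ a₀ + q * N := by
    have := Nat.le_mul_of_pos_right q (show 0 < N by omega)
    omega
  have hqg : (q : ℝ) ≤ (N : ℝ) ^ g := by
    refine le_trans ?_ hsize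
    exact_mod_cast hqN
  have hNθ : (⌊(N : ℝ) ^ θ⌋₊ : ℝ) + ((W * (NT + 4) : ℕ) : ℝ) ≤ N := by
    have h3 : (⌊(N : ℝ) ^ θ⌋₊ : ℝ) ≤ (N : ℝ) ^ θ := Nat.floor_le (by positivity)
    have h4 : (1 : ℝ) ≤ (N : ℝ) ^ θ := Real.one_le_rpow hN1 (by linarith)
    have h5 : (N : ℝ) ^ θ * (N : ℝ) ^ (1 - θ) = N := by
      rw [← Real.rpow_add hN0, add_sub_cancel, Real.rpow_one]
    have h6 : (0 : ℝ) ≤ ((W * (NT + 4) : ℕ) : ℝ) := Nat.cast_nonneg _
    nlinarith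
  have hWLN4 : W * (L + 1) + W * (NT + 4) ≤ N := by
    have h1 : ⌊(N : ℝ) ^ θ⌋₊ + W * (NT + 4) ≤ N := by exact_mod_cast hNθ
    omega
  have e1 : W * (L + 1) = W * L + W := by ring
  have e2 : W * (NT + 4) = W * NT + 4 * W := by ring
  -- the function
  obtain ⟨b, hbW, hb⟩ := exb' (PG_sys q a₀ hqa) W hW0 hWsq
  have hSys : Sys (g' + E) (fun x => (PP (PG q a₀) W t).eval x) := by
    have h1 := PPG_sys q a₀ W b NT (n := 2 ^ k) Nat.one_le_two_pow t hNT hqa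
      (fun p hp hpk => hWp p hp (by omega)) hb
    rw [← hg'] at h1
    exact sysMono h1 (by omega)
  have hGs : ∀ n : ℕ, 1 ≤ n → n + 2 ≤ N ^ 2 → (fun n => (PG q a₀).eval n) (n : ℤ) ≠ 0 ∧
      ((fun n => (PG q a₀).eval n) (n : ℤ)).natAbs ≤ (N ^ 2) ^ D := by
    intro n hn1 hn
    have hval : ((fun n => (PG q a₀).eval n) (n : ℤ)).natAbs = a₀ + q * n := PG_abs q a₀ n
    constructor
    · intro h0
      rw [h0, Int.natAbs_zero] at hval
      have := Nat.mul_pos hq hn1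
      omega
    · rw [hval]
      have hag : (a₀ : ℝ) ≤ (N : ℝ) ^ g := by
        refine le_trans ?_ hsize
        exact_mod_cast Nat.le_add_right a₀ (q * N)
      have hnr : (n : ℝ) ≤ (N : ℝ) ^ 2 := by exact_mod_cast (by omega : n ≤ N ^ 2)
      have h1 : ((a₀ + q * n : ℕ) : ℝ) ≤ (((N ^ 2) ^ D : ℕ) : ℝ) := by
        have hNg : 0 < (N : ℝ) ^ g := by positivity
        have hN9 : (1 : ℝ) ≤ (N : ℝ) ^ 2 := one_le_pow₀ hN1
        push_cast
        calc (a₀ : ℝ) + q * n ≤ (N : ℝ) ^ g + (N : ℝ) ^ g * (N : ℝ) ^ 2 :=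
              add_le_add hag (mul_le_mul hqg hnr (Nat.cast_nonneg _) hNg.le)
          _ ≤ (N : ℝ) ^ g * (N : ℝ) ^ 3 := by
              have h2 : 1 + (N : ℝ) ^ 2 ≤ (N : ℝ) ^ 3 := by nlinarith
              calc (N : ℝ) ^ g + (N : ℝ) ^ g * (N : ℝ) ^ 2 = (N : ℝ) ^ g * (1 + (N : ℝ) ^ 2) := by ring
                _ ≤ _ := mul_le_mul_of_nonneg_left h2 hNg.le
          _ = (N : ℝ) ^ (g + 3) := by
              rw [Real.rpow_add hN0]
              norm_num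
          _ ≤ (N : ℝ) ^ (D : ℝ) := Real.rpow_le_rpow_of_exponent_le hN1 hD
          _ = (N : ℝ) ^ D := Real.rpow_natCast _ _
          _ ≤ ((N : ℝ) ^ 2) ^ D := by
              rw [← pow_mul]
              exact pow_le_pow_right₀ hN1 (by omega)
      exact_mod_cast h1
  obtain ⟨M, hM⟩ : ∃ M : ℕ, M = 1 := ⟨_, rfl⟩
  obtain ⟨z, hz⟩ : ∃ z : ℕ, z + 1 = ⌈(N : ℝ) ^ ε₁⌉₊ := by
    have : 1 ≤ ⌈(N : ℝ) ^ ε₁⌉₊ := Nat.ceil_pos.2 (by positivity)
    exact ⟨⌈(N : ℝ) ^ ε₁⌉₊ - 1, by omega⟩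
  have hz1 : (z : ℝ) < (N : ℝ) ^ ε₁ := by
    have h1 := Nat.ceil_lt_add_one (show 0 ≤ (N : ℝ) ^ ε₁ by positivity)
    rw [← hz] at h1
    push_cast at h1
    linarith
  have hz2 : (N : ℝ) ^ ε₁ ≤ z + 1 := by
    have h1 := Nat.le_ceil ((N : ℝ) ^ ε₁)
    rw [← hz] at h1
    push_cast at h1
    exact h1
  have hML : M + L ≤ N := by
    have : L ≤ W * L := Nat.le_mul_of_pos_left _ hW0
    omega
  obtain ⟨hgd, hV0, hV1⟩ := hcore N n2 (fun n => (PG q a₀).eval n) (fun n => (PG q a₀).eval n)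
    (PG_sys q a₀ hqa) (PG_sys q a₀ hqa) (fun _ _ _ h => h) hGs (hM1 N (by omega) q a₀ hq hqa hqg)
    (hM2 N (by omega) q a₀ hq hqa hqg) b hbW hb M L z l2 hML hz1 hz2
  obtain ⟨Hs, AA, hHs, hA1, hA2⟩ := many2 (fun n => (PG q a₀).eval n) (fun n => (PG q a₀).eval n) 1 0 W b r M L N k m
    (2 * (1 * 2 ^ k) + 1) θ' ε₁ (τ / 4) υ lam (lam / υ) c
    (Vp (fun n => (PG q a₀).eval n) W b z t) (fun p hp _ N' H' => PG_sq q a₀ hqa p hp N' H') hW0 n1 n5 t hc hV0 hV1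
    hgd l2 n9 n10
  -- the progression
  have hbds : ∀ K ∈ Ioc M (M + L), 2 * W ≤ W * K + b ∧ W * K + b ≤ W * L + 2 * W := by
    intro K hK
    rw [mem_Ioc] at hK
    have h2 : W * 2 ≤ W * K := Nat.mul_le_mul_left _ (by omega)
    have h3 : W * K ≤ W * (M + L) := Nat.mul_le_mul_left _ hK.2
    have h5 : W * (M + L) = W + W * L := by
      rw [hM]
      ring
    refine ⟨by omega, by omega⟩
  have hWL : ((N : ℝ)) ^ θ' ≤ ((W * L : ℕ) : ℝ) := by
    refine l2.trans ?_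
    have : L ≤ W * L := Nat.le_mul_of_pos_left _ hW0
    exact_mod_cast this
  have hWL1 : 1 ≤ W * L := by
    have h1 : (1 : ℝ) ≤ ((W * L : ℕ) : ℝ) := le_trans (Real.one_le_rpow hN1 (by linarith)) hWL
    exact_mod_cast h1
  have hWLr : (1 : ℝ) ≤ ((W * L : ℕ) : ℝ) := by exact_mod_cast hWL1
  have hWLN : ((W * L : ℕ) : ℝ) ≤ N := by exact_mod_cast l4
  obtain ⟨a, d, hd1, hd2, had⟩ := hB (fun n => (PP (PG q a₀) W t).eval n) (W * M + b) (W * L)
    (AA.image (fun K => W * K + b)) hSys l3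
    (by
      intro n hn
      rw [mem_Ioc, hM, mul_one] at hn
      have h1 := PPG_size q a₀ W NT N t hNT hq n (by omega) (by omega)
      refine ⟨h1.1, h1.2.trans ?_⟩
      have h2 : (((a₀ + q * N) ^ 2 ^ k : ℕ) : ℝ) ≤ (((W * L) ^ (g' + E) : ℕ) : ℝ) := by
        push_cast
        push_cast at hsize hWL hWLr
        calc ((a₀ : ℝ) + q * N) ^ 2 ^ k ≤ ((N : ℝ) ^ g) ^ 2 ^ k := pow_le_pow_left₀ (by positivity) hsize _
          _ = (N : ℝ) ^ (g * 2 ^ k) := by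
              rw [← Real.rpow_natCast, ← Real.rpow_mul hN0.le]
              push_cast
              rfl
          _ ≤ (N : ℝ) ^ (θ' * E) := Real.rpow_le_rpow_of_exponent_le hN1 hE
          _ = ((N : ℝ) ^ θ') ^ E := by rw [Real.rpow_mul hN0.le, Real.rpow_natCast]
          _ ≤ ((W : ℝ) * L) ^ E := pow_le_pow_left₀ (by positivity) hWL _
          _ ≤ ((W : ℝ) * L) ^ (g' + E) := pow_le_pow_right₀ hWLr (by omega)
      have h3 : (a₀ + q * N) ^ 2 ^ k ≤ (W * L) ^ (g' + E) := by exact_mod_cast h2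
      exact_mod_cast h3)
    (by
      intro x hx
      rw [mem_image] at hx
      obtain ⟨K, hK, rfl⟩ := hx
      have h1 := (hA2 K hK).1
      rw [mem_Ioc] at h1 ⊢
      have h2 : W * (M + 1) ≤ W * K := Nat.mul_le_mul_left _ (by omega)
      have h3 : W * K ≤ W * (M + L) := Nat.mul_le_mul_left _ h1.2
      have h5 : W * (M + L) = W * M + W * L := by ring
      have h7 : W * (M + 1) = W * M + W := by ring
      constructor <;> omega)
    (by
      intro x hx p hp hpH hdvd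
      rw [mem_image] at hx
      obtain ⟨K, hK, rfl⟩ := hx
      obtain ⟨i, hi⟩ := (PP_dvd (PG q a₀) W b t p hp K).1 hdvd
      refine (hA2 K hK).2.1 p hp ?_ i hi
      refine hpH.trans_lt ?_
      calc ((W * L : ℕ) : ℝ) ^ (ε₁ / 2) ≤ (N : ℝ) ^ (ε₁ / 2) :=
            Real.rpow_le_rpow (by positivity) hWLN (by positivity)
        _ < (N : ℝ) ^ ε₁ := Real.rpow_lt_rpow_of_exponent_lt (by linarith) (by linarith))
    (by
      rw [card_image_of_injective _ (fun K K' hKK => by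
        have h1 : W * K + b = W * K' + b := hKK
        have h2 : W * K = W * K' := by omega
        exact Nat.eq_of_mul_eq_mul_left hW0 h2)]
      refine le_trans ?_ hA1
      have hzWL : z ≤ W * L := by
        have h1 : (z : ℝ) ≤ ((W * L : ℕ) : ℝ) := by
          refine hz1.le.trans (le_trans ?_ hWL)
          exact Real.rpow_le_rpow_of_exponent_le hN1 (by linarith)
        exact_mod_cast h1
      have h1 := PP_V (PG q a₀) 1 (PG_sys q a₀ hqa) W b z (W * L) t hzWL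
      calc κ * ((W * L : ℕ) * V (fun n => (PP (PG q a₀) W t).eval n) 1 (W * L)) ≤
          κ * ((W * L : ℕ) * Vp (fun n => (PG q a₀).eval n) W b z t) := by gcongr
        _ = c / (2 * 2 ^ 2 ^ k) * (L * Vp (fun n => (PG q a₀).eval n) W b z t) := by
            rw [hκ]
            push_cast
            field_simp)
  have hpt : ∀ j < l, ∃ K ∈ AA, W * K + b = a + j * d := by
    intro j hj
    have h1 := had j hj
    rw [mem_image] at h1
    obtain ⟨K, hK, h2⟩ := h1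
    exact ⟨K, hK, h2⟩
  obtain ⟨K0, hK0, hK0a⟩ := hpt 0 (by omega)
  rw [zero_mul, add_zero] at hK0a
  have hb0 := hbds K0 (hA2 K0 hK0).1
  rw [hK0a] at hb0
  refine ⟨Hs.image (fun i => W * t i + r), ?_, ?_, a - r, d, by omega, hd1, ?_, ?_⟩
  · intro h hh
    rw [mem_image] at hh
    obtain ⟨i, _, rfl⟩ := hh
    exact hmem i
  · rw [card_image_of_injective _ (fun i j hij => by
      have h1 : W * t i + r = W * t j + r := hij
      have h2 : W * t i = W * t j := by omega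
      exact ht (Nat.eq_of_mul_eq_mul_left hW0 h2))]
    exact hHs
  · refine hd2.trans ?_
    apply pow_le_pow_left₀ (Real.log_nonneg hWLr)
    exact Real.log_le_log (by linarith) hWLN
  · intro j hj h hh
    rw [mem_image] at hh
    obtain ⟨i, hi, rfl⟩ := hh
    obtain ⟨K, hK, hKa⟩ := hpt j hj
    have e : a - r + j * d + (W * t i + r) = W * (K + t i) + b := by
      have h1 := pt_eq W b r K (t i) (a + j * d) hKa (by omega)
      omega
    rw [e]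
    obtain ⟨hK1', hK2', hK3'⟩ := hA2 K hK
    obtain ⟨hw, hsq⟩ := hK3' i hi
    have hbK := hbds K hK1'
    have hx : W * (K + t i) + b ≤ N := by
      have h1 : W * t i ≤ W * NT := Nat.mul_le_mul_left _ (hNT i)
      have h2 : W * (K + t i) = W * K + W * t i := by ring
      omega
    have hx0 : 0 < W * (K + t i) + b := by
      have h2 : W * (K + t i) = W * K + W * t i := by ring
      omega
    have hval : ((fun n => (PG q a₀).eval n) ((W * (K + t i) + b : ℕ) : ℤ)).natAbs = a₀ + q * (W * (K + t i) + b) :=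
      PG_abs q a₀ _
    have hsize' : ((((fun n => (PG q a₀).eval n) ((W * (K + t i) + b : ℕ) : ℤ)).natAbs : ℕ) : ℝ) ≤ (N : ℝ) ^ S := by
      rw [hval]
      have h1 : a₀ + q * (W * (K + t i) + b) ≤ a₀ + q * N := Nat.add_le_add_left (Nat.mul_le_mul_left _ hx) _
      calc ((a₀ + q * (W * (K + t i) + b) : ℕ) : ℝ) ≤ ((a₀ + q * N : ℕ) : ℝ) := by exact_mod_cast h1
        _ ≤ (N : ℝ) ^ g := hsize
        _ ≤ (N : ℝ) ^ S := Real.rpow_le_rpow_of_exponent_le hN1 hgS.le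
    have halm := almost N (by omega) (τ / 4) υ lam S rr hτυ hυ0 (by linarith) hlam hrS
      ((fun n => (PG q a₀).eval n) ((W * (K + t i) + b : ℕ) : ℤ)).natAbs
      (by
        rw [hval]
        have := Nat.mul_pos hq hx0
        omega) hsize' hw (fun p hp hpd => hsq p hp (Int.natCast_dvd.2 hpd))
    rw [hval] at halm
    exact ⟨hx, halm.1, fun p hp hpd => (Real.rpow_le_rpow_of_exponent_le hN1 (by linarith)).trans (halm.2 p hp hpd)⟩

end Pool.Agent.Zk38.AP
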