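import Pool.Agent.Zk38.AP.UMT
import Pool.Agent.Zk38.AP.ModD

set_option autoImplicit false

/-! Clusters of products of few primes in the arithmetic progressions inside Oppermann's intervals, and in the initial
segments of all residue classes. -/

namespace Pool.Agent.Zk38.AP

open Finset Filter
open Pool.Agent.K3h19.RV (Lam)

/-- conversion between `H` and `n` -/
lemma opp_size (ϑ g : ℝ) (hϑ0 : 0 < ϑ) (hg0 : 0 < g) (hgϑ : 2 < ϑ * g) (H₀ : ℕ) : ∀ᶠ n : ℕ in atTop,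
    (3 : ℝ) ≤ n ∧ ∀ q a H : ℕ, 0 < q → a + q * H ≤ n ^ 2 + n → (n : ℝ) ^ ϑ ≤ H →
      H₀ ≤ H ∧ ((a + q * H : ℕ) : ℝ) ≤ (H : ℝ) ^ g ∧ 0 ≤ Real.log H ∧ Real.log H ≤ Real.log n ^ 2 := by
  have hT := tendsto_natCast_atTop_atTop (R := ℝ)
  have v1 : ∀ᶠ n : ℕ in atTop, (2 : ℝ) ≤ (n : ℝ) ^ (ϑ * g - 2) :=
    ((tendsto_rpow_atTop (by linarith)).comp hT).eventually_ge_atTop _
  have v2 : ∀ᶠ n : ℕ in atTop, ((H₀ + 3 : ℕ) : ℝ) ≤ (n : ℝ) ^ ϑ :=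
    ((tendsto_rpow_atTop hϑ0).comp hT).eventually_ge_atTop _
  have v3 : ∀ᶠ n : ℕ in atTop, (3 : ℝ) ≤ Real.log n :=
    (Real.tendsto_log_atTop.comp hT).eventually_ge_atTop _
  filter_upwards [v1, v2, v3, eventually_ge_atTop 3] with n w1 w2 w3 w4
  have hn3 : (3 : ℝ) ≤ n := by exact_mod_cast w4
  refine ⟨hn3, fun q a H hq hsz hH => ?_⟩
  have hn0 : (0 : ℝ) < n := by linarith
  have hH0 : H₀ + 3 ≤ H := by exact_mod_cast w2.trans hH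
  have hH3 : (3 : ℝ) ≤ H := by exact_mod_cast (by omega : 3 ≤ H)
  have hH0' : (0 : ℝ) < H := by linarith
  have hsq : n * 3 ≤ n ^ 2 := by nlinarith
  have hu : ((n ^ 2 + n : ℕ) : ℝ) ≤ 2 * (n : ℝ) ^ 2 := by
    have h1 : n ^ 2 + n ≤ 2 * n ^ 2 := by omega
    exact_mod_cast h1
  refine ⟨by omega, ?_, Real.log_nonneg (by linarith), ?_⟩
  · calc ((a + q * H : ℕ) : ℝ) ≤ ((n ^ 2 + n : ℕ) : ℝ) := by exact_mod_cast hsz
      _ ≤ 2 * (n : ℝ) ^ 2 := hu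
      _ ≤ (n : ℝ) ^ (ϑ * g - 2) * (n : ℝ) ^ 2 := mul_le_mul_of_nonneg_right w1 (by positivity)
      _ = (n : ℝ) ^ (ϑ * g) := by
          rw [← Real.rpow_natCast (n : ℝ) 2, ← Real.rpow_add hn0]
          congr 1
          push_cast
          ring
      _ = ((n : ℝ) ^ ϑ) ^ g := Real.rpow_mul hn0.le _ _
      _ ≤ (H : ℝ) ^ g := Real.rpow_le_rpow (by positivity) hH hg0.le
  · have hHn : (H : ℝ) ≤ (n : ℝ) ^ 3 := by
      have h1 : H ≤ q * H := Nat.le_mul_of_pos_left H hq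
      have h2 : H ≤ n ^ 2 + n := by omega
      have h3 : (H : ℝ) ≤ ((n ^ 2 + n : ℕ) : ℝ) := by exact_mod_cast h2
      have h4 : 2 * (n : ℝ) ^ 2 ≤ (n : ℝ) ^ 3 := by
        have := sq_nonneg (n : ℝ)
        nlinarith
      linarith
    have h5 : Real.log H ≤ 3 * Real.log n := by
      calc Real.log H ≤ Real.log ((n : ℝ) ^ 3) := Real.log_le_log hH0' hHn
        _ = 3 * Real.log n := by
            rw [Real.log_pow]
            push_cast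
            ring
    nlinarith

/-- clusters in Oppermann's intervals -/
theorem oppClusters (r : ℕ) (hr : 1 ≤ r) (ϑ : ℝ) (h2 : 2 < ϑ * Lam r) (m : ℕ) :
    ∃ K₀ : ℕ, ∀ S : Finset ℕ, K₀ ≤ S.card → ∀ l : ℕ, ∃ B : ℕ, ∀ᶠ n : ℕ in atTop,
      ∀ q a H : ℕ, 0 < q → Nat.Coprime a q → a + q * H ≤ n ^ 2 + n → (n : ℝ) ^ ϑ ≤ H →
      ∃ T ⊆ S, T.card = m ∧ ∃ x d : ℕ, 1 ≤ x ∧ 1 ≤ d ∧ (d : ℝ) ≤ Real.log n ^ B ∧ ∀ j < l, ∀ h ∈ T,
        x + j * d + h ≤ H ∧ (a + q * (x + j * d + h)).primeFactorsList.length ≤ r ∧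
        ∀ p : ℕ, p.Prime → p ∣ a + q * (x + j * d + h) → (n : ℝ) ^ (ϑ / 8) ≤ p := by
  have hL1 := Lam_posG r hr
  have hL0 : 0 < Lam r := by linarith
  have hϑ0 : 0 < ϑ := by
    by_contra h0
    push Not at h0
    nlinarith
  obtain ⟨g, hgd⟩ : ∃ g : ℝ, g = (2 / ϑ + Lam r) / 2 := ⟨_, rfl⟩
  have h1 : 2 / ϑ < Lam r := by
    rw [div_lt_iff₀ hϑ0]
    linarith
  have hg1 : 2 / ϑ < g := by rw [hgd]; linarith
  have hg2 : g < Lam r := by rw [hgd]; linarith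
  have hg0 : 0 < g := lt_trans (by positivity) hg1
  have hgϑ : 2 < ϑ * g := by
    rw [div_lt_iff₀ hϑ0] at hg1
    linarith
  obtain ⟨K₀, hK⟩ := clustersU r hr g hg0 hg2 m
  refine ⟨K₀, fun S hS l => ?_⟩
  obtain ⟨B, H₀, hB⟩ := hK S hS (l + 2) (by omega)
  refine ⟨2 * B, ?_⟩
  filter_upwards [opp_size ϑ g hϑ0 hg0 hgϑ H₀] with n hn q a H hq hqa hsz hH
  obtain ⟨hn3, hn⟩ := hn
  obtain ⟨w1, w2, w3, w4⟩ := hn q a H hq hsz hH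
  obtain ⟨T, hT, hTc, x, d, g1, g2, g3, g4⟩ := hB q a H hq hqa w1 w2
  refine ⟨T, hT, hTc, x, d, g1, g2, g3.trans ?_, fun j hj h hh => ?_⟩
  · rw [pow_mul]
    exact pow_le_pow_left₀ w3 w4 B
  · obtain ⟨g5, g6, g7⟩ := g4 j (by omega) h hh
    refine ⟨g5, g6, fun p hp hpd => le_trans ?_ (g7 p hp hpd)⟩
    rw [show ϑ / 8 = ϑ * (1 / 8) by ring, Real.rpow_mul (by linarith)]
    exact Real.rpow_le_rpow (by positivity) hH (by norm_num)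

/-- clusters in the initial segments with at least `a ^ θ` terms of the classes modulo `a` -/
theorem classClusters (r : ℕ) (hr : 1 ≤ r) (θ : ℝ) (hθ : 0 < θ) (h2 : 1 + θ < θ * Lam r) (m : ℕ) :
    ∃ K₀ : ℕ, ∀ S : Finset ℕ, K₀ ≤ S.card → ∀ l : ℕ, ∃ B H₀ : ℕ,
      ∀ q a H : ℕ, 0 < q → Nat.Coprime a q → a ≤ q → (q : ℝ) ^ θ ≤ H → H₀ ≤ H →
      ∃ T ⊆ S, T.card = m ∧ ∃ x d : ℕ, 1 ≤ x ∧ 1 ≤ d ∧ (d : ℝ) ≤ Real.log H ^ B ∧ ∀ j < l, ∀ h ∈ T,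
        x + j * d + h ≤ H ∧ (a + q * (x + j * d + h)).primeFactorsList.length ≤ r ∧
        ∀ p : ℕ, p.Prime → p ∣ a + q * (x + j * d + h) → (H : ℝ) ^ (1 / 8 : ℝ) ≤ p := by
  have hL1 := Lam_posG r hr
  have hL0 : 0 < Lam r := by linarith
  obtain ⟨g, hgd⟩ : ∃ g : ℝ, g = ((1 + θ) / θ + Lam r) / 2 := ⟨_, rfl⟩
  have h1 : (1 + θ) / θ < Lam r := by
    rw [div_lt_iff₀ hθ]
    linarith
  have hg1 : (1 + θ) / θ < g := by rw [hgd]; linarith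
  have hg2 : g < Lam r := by rw [hgd]; linarith
  have hg0 : 0 < g := lt_trans (by positivity) hg1
  obtain ⟨K₀, hK⟩ := clustersU r hr g hg0 hg2 m
  refine ⟨K₀, fun S hS l => ?_⟩
  obtain ⟨B, H₀, hB⟩ := hK S hS (l + 2) (by omega)
  obtain ⟨H₁, hH₁⟩ := mod_size θ g hθ hg1
  refine ⟨B, H₀ + H₁, fun q a H hq hqa haq hqH hH => ?_⟩
  obtain ⟨T, hT, hTc, x, d, g1, g2, g3, g4⟩ := hB q a H hq hqa (by omega) (hH₁ q a H hq haq hqH (by omega))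
  exact ⟨T, hT, hTc, x, d, g1, g2, g3, fun j hj h hh => g4 j (by omega) h hh⟩

end Pool.Agent.Zk38.AP
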