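import Pool.Agent.Zk38.AP.UMT

set_option autoImplicit false

/-! Clusters of products of few primes in the arithmetic progressions inside `[x, 2 x]`. -/

namespace Pool.Agent.Zk38.AP

open Finset Filter
open Pool.Agent.K3h19.RV (Lam)

/-- clusters in the progressions inside `[x, 2 x]` -/
theorem realClusters (r : ℕ) (hr : 1 ≤ r) (θ : ℝ) (h2 : 1 < θ * Lam r) (m : ℕ) :
    ∃ K₀ : ℕ, ∀ S : Finset ℕ, K₀ ≤ S.card → ∀ l : ℕ, ∃ B : ℕ, ∀ᶠ x : ℝ in atTop,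
      ∀ q a H : ℕ, 0 < q → Nat.Coprime a q → ((a + q * H : ℕ) : ℝ) ≤ 2 * x → x ^ θ ≤ H →
      ∃ T ⊆ S, T.card = m ∧ ∃ y d : ℕ, 1 ≤ y ∧ 1 ≤ d ∧ (d : ℝ) ≤ Real.log x ^ B ∧ ∀ j < l, ∀ h ∈ T,
        y + j * d + h ≤ H ∧ (a + q * (y + j * d + h)).primeFactorsList.length ≤ r ∧
        ∀ p : ℕ, p.Prime → p ∣ a + q * (y + j * d + h) → x ^ (θ / 8) ≤ p := by
  have hL1 := Lam_posG r hr
  have hL0 : 0 < Lam r := by linarith
  have hθ0 : 0 < θ := by
    by_contra h0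
    push Not at h0
    nlinarith
  obtain ⟨g, hgd⟩ : ∃ g : ℝ, g = (1 / θ + Lam r) / 2 := ⟨_, rfl⟩
  have h1 : 1 / θ < Lam r := by
    rw [div_lt_iff₀ hθ0]
    linarith
  have hg1 : 1 / θ < g := by rw [hgd]; linarith
  have hg2 : g < Lam r := by rw [hgd]; linarith
  have hg0 : 0 < g := lt_trans (by positivity) hg1
  have hgθ : 1 < θ * g := by
    rw [div_lt_iff₀ hθ0] at hg1
    linarith
  obtain ⟨K₀, hK⟩ := clustersU r hr g hg0 hg2 m
  refine ⟨K₀, fun S hS l => ?_⟩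
  obtain ⟨B, H₀, hB⟩ := hK S hS (l + 2) (by omega)
  refine ⟨2 * B, ?_⟩
  have v1 : ∀ᶠ x : ℝ in atTop, (2 : ℝ) ≤ x ^ (θ * g - 1) :=
    (tendsto_rpow_atTop (by linarith)).eventually_ge_atTop _
  have v2 : ∀ᶠ x : ℝ in atTop, ((H₀ + 3 : ℕ) : ℝ) ≤ x ^ θ :=
    (tendsto_rpow_atTop hθ0).eventually_ge_atTop _
  have v3 : ∀ᶠ x : ℝ in atTop, (3 : ℝ) ≤ Real.log x := Real.tendsto_log_atTop.eventually_ge_atTop _
  filter_upwards [v1, v2, v3, eventually_ge_atTop 3] with x w1 w2 w3 w4 q a H hq hqa hsz hH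
  have hx0 : (0 : ℝ) < x := by linarith
  have hH0 : H₀ + 3 ≤ H := by exact_mod_cast w2.trans hH
  have hH3 : (3 : ℝ) ≤ H := by exact_mod_cast (by omega : 3 ≤ H)
  have hH0' : (0 : ℝ) < H := by linarith
  have hsize : ((a + q * H : ℕ) : ℝ) ≤ (H : ℝ) ^ g := by
    calc ((a + q * H : ℕ) : ℝ) ≤ 2 * x := hsz
      _ ≤ x ^ (θ * g - 1) * x := mul_le_mul_of_nonneg_right w1 hx0.le
      _ = x ^ (θ * g) := by
          nth_rewrite 2 [← Real.rpow_one x]
          rw [← Real.rpow_add hx0]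
          congr 1
          ring
      _ = (x ^ θ) ^ g := Real.rpow_mul hx0.le _ _
      _ ≤ (H : ℝ) ^ g := Real.rpow_le_rpow (by positivity) hH hg0.le
  have hHx : (H : ℝ) ≤ x ^ 2 := by
    have h1 : H ≤ a + q * H := (Nat.le_mul_of_pos_left H hq).trans (Nat.le_add_left _ _)
    have h3 : (H : ℝ) ≤ ((a + q * H : ℕ) : ℝ) := by exact_mod_cast h1
    nlinarith
  have hlH : 0 ≤ Real.log H := Real.log_nonneg (by linarith)
  have hlog : Real.log H ≤ Real.log x ^ 2 := by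
    have h5 : Real.log H ≤ 2 * Real.log x := by
      calc Real.log H ≤ Real.log (x ^ 2) := Real.log_le_log hH0' hHx
        _ = 2 * Real.log x := by
            rw [Real.log_pow]
            push_cast
            ring
    nlinarith
  obtain ⟨T, hT, hTc, y, d, g1, g2, g3, g4⟩ := hB q a H hq hqa (by omega) hsize
  refine ⟨T, hT, hTc, y, d, g1, g2, g3.trans ?_, fun j hj h hh => ?_⟩
  · rw [pow_mul]
    exact pow_le_pow_left₀ hlH hlog B
  · obtain ⟨g5, g6, g7⟩ := g4 j (by omega) h hh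
    refine ⟨g5, g6, fun p hp hpd => le_trans ?_ (g7 p hp hpd)⟩
    rw [show θ / 8 = θ * (1 / 8) by ring, Real.rpow_mul hx0.le]
    exact Real.rpow_le_rpow (by positivity) hH (by norm_num)

end Pool.Agent.Zk38.AP
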